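import Pool.Agent.Work.MP_3e1eec_co.Defs

/-! The saturation number of a path. -/

namespace PS

/-- The least number of edges of a `P_k`-saturated graph on `n` vertices. -/
noncomputable def satN (n k : ℕ) : ℕ :=
  sInf {e | ∃ G : SimpleGraph (Fin n), Sat k G ∧ G.edgeSet.ncard = e}

end PS
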