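import Pool.Agent.Work.MP_3e1eec_co.TriB
import Pool.Agent.Work.MP_3e1eec_co.Cnt
import Pool.Agent.Work.MP_3e1eec_co.O.Def

-- merged part: Pool.Agent.Work.MP_3e1eec_co.O.Rod0
section
/-! A rod: a spine `0, …, ℓ + 1` with binary trees of height `ht ℓ i` at the spine vertices. -/

open SimpleGraph

namespace PS

/-- Position on the spine and address in the tree. -/
abbrev Rv : Type := ℕ × List Bool

/-- Height of the tree at position `i`. -/
def ht (ℓ i : ℕ) : ℕ := min i (ℓ + 1 - i) - 1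

/-- The rod. -/
def Rd (ℓ : ℕ) : SimpleGraph Rv where
  Adj u v := (u.2 = [] ∧ v.2 = [] ∧ ((v.1 = u.1 + 1 ∧ u.1 ≤ ℓ) ∨ (u.1 = v.1 + 1 ∧ v.1 ≤ ℓ))) ∨
    (u.1 = v.1 ∧ ((∃ x, v.2 = x :: u.2 ∧ u.2.length < ht ℓ u.1) ∨
      ∃ x, u.2 = x :: v.2 ∧ v.2.length < ht ℓ u.1))
  symm := ⟨by
    rintro u v (⟨a, b, c⟩ | ⟨a, b⟩)
    · exact Or.inl ⟨b, a, c.symm⟩
    · exact Or.inr ⟨a.symm, a ▸ b.symm⟩⟩
  loopless := ⟨by
    rintro u (⟨-, -, c⟩ | ⟨-, ⟨x, b, -⟩ | ⟨x, b, -⟩⟩)
    · omega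
    · simpa using congrArg List.length b
    · simpa using congrArg List.length b⟩

/-- Inner vertices of the rod. -/
def Vi (ℓ : ℕ) (u : Rv) : Prop := 1 ≤ u.1 ∧ u.1 ≤ ℓ ∧ u.2.length ≤ ht ℓ u.1

/-- Reflection. -/
def rf (ℓ : ℕ) (u : Rv) : Rv := (ℓ + 1 - u.1, u.2)

/-- Joining `u` to `v` gives a long path which leaves the rod at position `0`. -/
def Wn (ℓ : ℕ) (u v : Rv) : Prop :=
  ∃ A B, P (Rd ℓ) (u :: A) ∧ P (Rd ℓ) ((v :: B) ++ [(0, [])]) ∧ (u :: A).Disjoint (v :: B) ∧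
    (∀ t ∈ A, Vi ℓ t) ∧ (∀ t ∈ v :: B, Vi ℓ t) ∧
    ℓ + 1 + (if u.1 = ℓ + 1 then 1 else 0) ≤ A.length + B.length + 2

variable {ℓ : ℕ} {u v : Rv}

theorem ht_rf {i : ℕ} (h : i ≤ ℓ + 1) : ht ℓ (ℓ + 1 - i) = ht ℓ i := by
  unfold ht; omega

theorem rf_rf (h : u.1 ≤ ℓ + 1) : rf ℓ (rf ℓ u) = u := by
  refine Prod.ext ?_ rfl
  simp only [rf]
  omega

theorem rf_le (u : Rv) : (rf ℓ u).1 ≤ ℓ + 1 := Nat.sub_le _ _

theorem Vi.le (h : Vi ℓ u) : u.1 ≤ ℓ + 1 := h.2.1.trans (Nat.le_succ _)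

theorem Vi.rf (h : Vi ℓ u) : Vi ℓ (rf ℓ u) := by
  obtain ⟨a, b, c⟩ := h
  refine ⟨?_, ?_, ?_⟩ <;> simp only [PS.rf, ht] at * <;> omega

theorem rd_sp {i : ℕ} (h : i ≤ ℓ) : (Rd ℓ).Adj (i, []) (i + 1, []) :=
  Or.inl ⟨rfl, rfl, Or.inl ⟨rfl, h⟩⟩

theorem rd_tr {i : ℕ} {L : List Bool} (x : Bool) (h : L.length < ht ℓ i) :
    (Rd ℓ).Adj (i, L) (i, x :: L) := Or.inr ⟨rfl, Or.inl ⟨x, rfl, h⟩⟩

theorem rd_va (h : (Rd ℓ).Adj u v) : Vi ℓ u ∨ u = (0, []) ∨ u = (ℓ + 1, []) := by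
  obtain ⟨i, L⟩ := u
  obtain ⟨j, M⟩ := v
  rcases h with ⟨a, -, c⟩ | ⟨-, ⟨x, -, c⟩ | ⟨x, b, c⟩⟩
  · simp only at a c
    subst a
    simp only [Vi, List.length_nil, Prod.mk.injEq, and_true]
    omega
  · refine Or.inl ⟨?_, ?_, ?_⟩ <;> simp only [ht] at * <;> omega
  · simp only at b
    subst b
    refine Or.inl ⟨?_, ?_, ?_⟩ <;> simp only [ht, List.length_cons] at * <;> omega

theorem rd_le (h : (Rd ℓ).Adj u v) : u.1 ≤ ℓ + 1 := by
  rcases rd_va h with a | rfl | rfl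
  · exact a.le
  · exact Nat.zero_le _
  · exact le_rfl

theorem rd_rf (h : (Rd ℓ).Adj u v) : (Rd ℓ).Adj (rf ℓ u) (rf ℓ v) := by
  have h1 := rd_le h
  rcases h with ⟨a, b, c⟩ | ⟨a, b⟩
  · refine Or.inl ⟨a, b, ?_⟩
    simp only [rf]
    omega
  · refine Or.inr ⟨by simp only [rf, a], ?_⟩
    simp only [rf]
    rwa [ht_rf h1]

theorem rd_zero (h : (Rd ℓ).Adj (0, []) v) : v = (1, []) := by
  rcases h with ⟨-, b, c⟩ | ⟨-, ⟨x, -, c⟩ | ⟨x, b, -⟩⟩
  · exact Prod.ext (by simp only at c ⊢; omega) b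
  · simp [ht] at c
  · simp at b

/-- The neighbours of a vertex. -/
theorem rd_nb {i : ℕ} {L : List Bool} (h : (Rd ℓ).Adj (i, L) v) :
    (L = [] ∧ i ≤ ℓ ∧ v = (i + 1, [])) ∨ (L = [] ∧ 1 ≤ i ∧ v = (i - 1, [])) ∨
      (∃ x, L.length < ht ℓ i ∧ v = (i, x :: L)) ∨ ∃ x, L = x :: v.2 ∧ v.1 = i := by
  rcases h with ⟨a, b, c | c⟩ | ⟨a, ⟨x, b, c⟩ | ⟨x, b, -⟩⟩
  · exact Or.inl ⟨a, c.2, Prod.ext c.1 b⟩
  · exact Or.inr (Or.inl ⟨a, by simp only at c; omega, Prod.ext (by simp only at c ⊢; omega) b⟩)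
  · exact Or.inr (Or.inr (Or.inl ⟨x, c, Prod.ext a.symm b⟩))
  · exact Or.inr (Or.inr (Or.inr ⟨x, b, a.symm⟩))

end PS
end

-- merged part: Pool.Agent.Work.MP_3e1eec_co.O.Up0
section
/-! The graph: blocks (cliques with three ports and perhaps one more vertex) joined by rods along
the edges of a cubic bipartite host graph with a perfect one-factorisation. -/

open SimpleGraph

namespace PS

/-- Three perfect matchings of a bipartite graph; any two of them form a Hamilton cycle. -/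
structure Host (B : Type) [Fintype B] where
  m : Fin 3 → B → B
  side : B → Bool
  inv : ∀ c X, m c (m c X) = X
  sd : ∀ c X, side (m c X) = !side X
  smp : ∀ c c' X, m c X = m c' X → c = c'
  pos : 0 < Fintype.card B
  half : 2 * (Finset.univ.filter fun X => side X = false).card = Fintype.card B
  ham : ∀ X d a, a ≠ d → ∃ Z : ℕ → B, Z 0 = X ∧
    (∀ j, Z (j + 1) = m (if j % 2 = 0 then d else a) (Z j)) ∧
    (∀ i j, i < Fintype.card B → j < Fintype.card B → Z i = Z j → i = j) ∧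
    Z (Fintype.card B) = X

/-- Raw vertices. -/
abbrev Wv (B : Type) : Type := B ⊕ (B × Fin 3 × Rv)

/-- The number of vertices of the forbidden path. -/
def kk (s Q ℓ : ℕ) : ℕ := 3 * s + Q + (s + 1) * ℓ + 1

variable {B : Type} [Fintype B] (H : Host B) (ℓ : ℕ) (q : Finset B)

/-- The rod of colour `c` at the block `X`, seen from `X`. -/
def ph (X : B) (c : Fin 3) (p : Rv) : Wv B :=
  if H.side X = true then Sum.inr (H.m c X, c, rf ℓ p) else Sum.inr (X, c, p)

/-- The vertices of the block `X`. -/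
def Bl (X : B) (u : Wv B) : Prop := (u = Sum.inl X ∧ X ∈ q) ∨ ∃ c, u = ph H ℓ X c (0, [])

/-- The inner vertices of the rod of colour `c` at `X`. -/
def In (X : B) (c : Fin 3) (u : Wv B) : Prop := ∃ p, Vi ℓ p ∧ u = ph H ℓ X c p

/-- The vertices which are used. -/
def Va (u : Wv B) : Prop := (∃ X, Bl H ℓ q X u) ∨ ∃ X c, In H ℓ X c u

/-- The vertices near the rod ends. -/
def Zn (X : B) (c : Fin 3) (u : Wv B) : Prop :=
  Bl H ℓ q X u ∨ Bl H ℓ q (H.m c X) u ∨ u = ph H ℓ X c (2, [])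

/-- The graph. -/
def G0 : SimpleGraph (Wv B) where
  Adj u v := u ≠ v ∧ ((∃ X c p r, (Rd ℓ).Adj p r ∧ u = ph H ℓ X c p ∧ v = ph H ℓ X c r) ∨
    ∃ X, Bl H ℓ q X u ∧ Bl H ℓ q X v)
  symm := ⟨by
    rintro u v ⟨h, ⟨X, c, p, r, a, b, d⟩ | ⟨X, a, b⟩⟩
    · exact ⟨h.symm, Or.inl ⟨X, c, r, p, a.symm, d, b⟩⟩
    · exact ⟨h.symm, Or.inr ⟨X, b, a⟩⟩⟩
  loopless := ⟨fun _ h => h.1 rfl⟩

/-- A long tail can start at the port `(Y, c')` and avoid the rods `(U, c)` and `(Y, c')`. -/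
def Gt (U : B) (c : Fin 3) (Y : B) (c' : Fin 3) : Prop :=
  c = c' ∨ (H.m c' Y ≠ U ∧ H.m c' Y ≠ H.m c U)

variable {H ℓ q} {X Y : B} {c c' : Fin 3} {p r : Rv} {u v : Wv B}

theorem Host.ne (H : Host B) (c : Fin 3) (X : B) : H.m c X ≠ X := fun e => by
  have := H.sd c X
  rw [e] at this
  simp at this

theorem Host.inj (H : Host B) {c : Fin 3} {X Y : B} (h : H.m c X = H.m c Y) : X = Y := by
  rw [← H.inv c X, h, H.inv]

theorem ph_rf (h : p.1 ≤ ℓ + 1) : ph H ℓ (H.m c X) c (rf ℓ p) = ph H ℓ X c p := by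
  unfold ph
  rw [H.sd, H.inv, rf_rf h]
  cases H.side X <;> simp

theorem ph_end : ph H ℓ X c (ℓ + 1, []) = ph H ℓ (H.m c X) c (0, []) := by
  rw [← ph_rf (p := (ℓ + 1, [])) le_rfl]
  simp [rf]

theorem ph_inl : ph H ℓ X c p ≠ Sum.inl Y := by
  unfold ph
  split_ifs <;> simp

theorem ph_inj (h : p.1 ≤ ℓ + 1) (h' : r.1 ≤ ℓ + 1) (e : ph H ℓ X c p = ph H ℓ Y c' r) :
    c = c' ∧ ((Y = X ∧ r = p) ∨ (Y = H.m c X ∧ r = rf ℓ p)) := by
  unfold ph at e
  split_ifs at e with a b b <;> simp only [Sum.inr.injEq, Prod.mk.injEq] at e <;>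
    obtain ⟨e1, rfl, e3⟩ := e
  · exact ⟨rfl, Or.inl ⟨(H.inj e1).symm, by rw [← rf_rf h', ← e3, rf_rf h]⟩⟩
  · exact ⟨rfl, Or.inr ⟨e1.symm, e3.symm⟩⟩
  · exact ⟨rfl, Or.inr ⟨by rw [e1, H.inv], by rw [e3, rf_rf h']⟩⟩
  · exact ⟨rfl, Or.inl ⟨e1.symm, e3.symm⟩⟩

theorem ph_inj1 (h : p.1 ≤ ℓ + 1) (h' : r.1 ≤ ℓ + 1) (e : ph H ℓ X c p = ph H ℓ X c r) : p = r := by
  rcases (ph_inj h h' e).2 with a | a
  · exact a.2.symm
  · exact absurd a.1.symm (H.ne c X)

theorem ph_port (e : ph H ℓ X c (0, []) = ph H ℓ Y c' (0, [])) : c = c' ∧ X = Y := by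
  obtain ⟨a, b | b⟩ := ph_inj (Nat.zero_le _) (Nat.zero_le _) e
  · exact ⟨a, b.1.symm⟩
  · simp [rf] at b

theorem adj_ph (h : (Rd ℓ).Adj p r) : (G0 H ℓ q).Adj (ph H ℓ X c p) (ph H ℓ X c r) :=
  ⟨fun e => h.ne (ph_inj1 (rd_le h) (rd_le h.symm) e), Or.inl ⟨X, c, p, r, h, rfl, rfl⟩⟩

theorem adj_bl (h : Bl H ℓ q X u) (h' : Bl H ℓ q X v) (hne : u ≠ v) : (G0 H ℓ q).Adj u v :=
  ⟨hne, Or.inr ⟨X, h, h'⟩⟩

theorem bl_port (X : B) (c : Fin 3) : Bl H ℓ q X (ph H ℓ X c (0, [])) := Or.inr ⟨c, rfl⟩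

theorem bl_in (h : Bl H ℓ q X u) : ¬ In H ℓ Y c u := by
  rintro ⟨p, hp, rfl⟩
  rcases h with h | ⟨d, h⟩
  · exact ph_inl h.1
  · obtain ⟨a, b, -⟩ := hp
    rcases (ph_inj (b.trans (Nat.le_succ _)) (Nat.zero_le _) h).2 with e | e <;>
      have := congrArg Prod.fst e.2 <;> simp only [rf] at this <;> omega

theorem bl_eq (h : Bl H ℓ q X u) (h' : Bl H ℓ q Y u) : X = Y := by
  rcases h with ⟨rfl, -⟩ | ⟨d, rfl⟩ <;> rcases h' with ⟨e, -⟩ | ⟨d', e⟩
  · exact Sum.inl.inj e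
  · exact absurd e.symm ph_inl
  · exact absurd e ph_inl
  · exact (ph_port e).2

theorem in_eq (h : In H ℓ X c u) (h' : In H ℓ Y c' u) : c = c' ∧ (Y = X ∨ Y = H.m c X) := by
  obtain ⟨p, hp, rfl⟩ := h
  obtain ⟨r, hr, e⟩ := h'
  obtain ⟨a, b⟩ := ph_inj hp.le hr.le e
  exact ⟨a, b.imp And.left And.left⟩

theorem In.rev (h : In H ℓ X c u) : In H ℓ (H.m c X) c u := by
  obtain ⟨p, hp, rfl⟩ := h
  exact ⟨_, hp.rf, (ph_rf hp.le).symm⟩

theorem nb_in (hp : Vi ℓ p) (h : (G0 H ℓ q).Adj (ph H ℓ X c p) v) :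
    ∃ r, (Rd ℓ).Adj p r ∧ v = ph H ℓ X c r := by
  obtain ⟨-, ⟨Y, d, p', r, a, b, rfl⟩ | ⟨Y, a, -⟩⟩ := h
  · obtain ⟨rfl, ⟨rfl, rfl⟩ | ⟨rfl, rfl⟩⟩ := ph_inj hp.le (rd_le a) b
    · exact ⟨r, a, rfl⟩
    · refine ⟨rf ℓ r, by simpa only [rf_rf hp.le] using rd_rf a, ?_⟩
      rw [← ph_rf (X := X) (rf_le r), rf_rf (rd_le a.symm)]
  · exact absurd ⟨p, hp, rfl⟩ (bl_in a)

theorem nb_bl (hu : Bl H ℓ q X u) (h : (G0 H ℓ q).Adj u v) :
    Bl H ℓ q X v ∨ ∃ c, u = ph H ℓ X c (0, []) ∧ v = ph H ℓ X c (1, []) := by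
  obtain ⟨-, ⟨Y, d, p, r, a, rfl, rfl⟩ | ⟨Y, a, b⟩⟩ := h
  · rcases rd_va a with e | rfl | rfl
    · exact absurd ⟨p, e, rfl⟩ (bl_in hu)
    · obtain rfl := bl_eq hu (bl_port Y d)
      exact Or.inr ⟨d, rfl, by rw [rd_zero a]⟩
    · rw [ph_end] at hu ⊢
      obtain rfl := bl_eq hu (bl_port _ d)
      have e := rd_rf a
      rw [show rf ℓ (ℓ + 1, []) = (0, []) by simp [rf]] at e
      exact Or.inr ⟨d, rfl, by rw [← rd_zero e, ph_rf (rd_le a.symm)]⟩
  · exact Or.inl (bl_eq a hu ▸ b)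

theorem adj_va (h : (G0 H ℓ q).Adj u v) : Va H ℓ q u := by
  obtain ⟨-, ⟨Y, d, p, r, a, rfl, -⟩ | ⟨Y, a, -⟩⟩ := h
  · rcases rd_va a with e | rfl | rfl
    · exact Or.inr ⟨Y, d, p, e, rfl⟩
    · exact Or.inl ⟨Y, bl_port Y d⟩
    · exact Or.inl ⟨_, ph_end (H := H) ▸ bl_port _ d⟩
  · exact Or.inl ⟨Y, a⟩

theorem map_ph (X : B) (c : Fin 3) {l : List Rv} (h : P (Rd ℓ) l) (hl : ∀ p ∈ l, p.1 ≤ ℓ + 1) :
    P (G0 H ℓ q) (l.map (ph H ℓ X c)) :=
  Con1_unmap _ h (fun _ _ _ _ a => adj_ph a) fun a ha b hb e => ph_inj1 (hl a ha) (hl b hb) e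

theorem in_one (h1 : 1 ≤ ℓ) (X : B) (c : Fin 3) : In H ℓ X c (ph H ℓ X c (1, [])) :=
  ⟨_, ⟨le_rfl, h1, Nat.zero_le _⟩, rfl⟩

end PS
end

-- merged part: Pool.Agent.Work.MP_3e1eec_co.O.Rod1
section
/-! Paths inside a rod, and its size.
Plan.  The depth of `(i, L)` is `i + L.length ≤ ℓ` for an inner vertex; by `rd_nb` exactly one neighbour (the parent: `(i - 1, [])` if `L = []`, else `(i, L.tail)`) has depth one less, the others have depth one more.
`rod_run1`: a path which arrives at an inner vertex from its parent goes on to children; induction on the list gives `R.length + depth ≤ ℓ`.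
`rod_run2`: induction: `(v :: R).length ≤ depth v + ℓ` (the next vertex is the parent, or use the first step).
`rod_climb`: induction on the part of `L` in front of `L₀`.  `rod_down`, `rod_up`: induction on the distance.  `rod_dive`: induction on `ht ℓ i - L.length`, go to `false :: L`.
`rod_hl`: `rod_down` to `0`, then `rod_climb`.
`rod_card`: a finite set of all lists of length at most `g` with at most `2 ^ (g + 1) - 1` elements (recursion on `g`); `ht ℓ i ≤ i - 1` for `i ≤ h + 1` and `ht ℓ i ≤ j - 1` for `j = ℓ + 1 - i ≤ h` otherwise; `∑ i ≤ m, (2 ^ (i - 1 + 1) - 1) = 2 ^ (m + 1) - 1 - m`. -/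

open SimpleGraph

namespace PS
variable {ℓ : ℕ} {u : Rv}

/-- The parent of a vertex. -/
def Rod1_par (u : Rv) : Rv := if u.2 = [] then (u.1 - 1, []) else (u.1, u.2.tail)

theorem Rod1_nb {v : Rv} (h : (Rd ℓ).Adj u v) :
    (v = Rod1_par u ∧ v.1 + v.2.length + 1 = u.1 + u.2.length) ∨
      (u = Rod1_par v ∧ v.1 + v.2.length = u.1 + u.2.length + 1) := by
  obtain ⟨i, L⟩ := u
  obtain ⟨j, M⟩ := v
  rcases rd_nb h with ⟨rfl, -, c⟩ | ⟨rfl, b, c⟩ | ⟨x, -, c⟩ | ⟨x, rfl, rfl⟩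
  · rw [c]
    exact Or.inr ⟨rfl, rfl⟩
  · rw [c]
    exact Or.inl ⟨rfl, Nat.sub_add_cancel b⟩
  · rw [c]
    exact Or.inr ⟨rfl, rfl⟩
  · exact Or.inl ⟨rfl, rfl⟩

theorem Rod1_dep (h : Vi ℓ u) : 1 ≤ u.1 + u.2.length ∧ u.1 + u.2.length ≤ ℓ := by
  obtain ⟨a, b, c⟩ := h
  unfold ht at c
  omega

theorem Rod1_run {R : List Rv} {v : Rv} (h : P (Rd ℓ) (Rod1_par v :: v :: R))
    (hT : ∀ t ∈ v :: R, Vi ℓ t) : R.length + (v.1 + v.2.length) ≤ ℓ := by
  induction R generalizing v with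
  | nil => simpa using (Rod1_dep (hT v List.mem_cons_self)).2
  | cons w R ih =>
    rcases Rod1_nb h.tail.adj with ⟨a, -⟩ | ⟨a, b⟩
    · exact absurd (by simp [a]) h.notMem
    · have := ih (a ▸ h.tail) fun t ht => hT t (List.mem_cons_of_mem _ ht)
      rw [List.length_cons]
      omega

theorem rod_run1 {T : List Rv} (h : P (Rd ℓ) ((0, []) :: T)) (hT : ∀ t ∈ T, Vi ℓ t) :
    T.length ≤ ℓ := by
  cases T with
  | nil => exact Nat.zero_le _
  | cons v R =>
    obtain rfl := rd_zero h.adj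
    exact Rod1_run (v := (1, [])) h hT

theorem rod_run2 {T : List Rv} (h : P (Rd ℓ) T) (hT : ∀ t ∈ T, Vi ℓ t) : T.length ≤ 2 * ℓ := by
  have key : ∀ (R : List Rv) (v : Rv), P (Rd ℓ) (v :: R) → (∀ t ∈ v :: R, Vi ℓ t) →
      R.length + 1 ≤ v.1 + v.2.length + ℓ := by
    intro R
    induction R with
    | nil =>
      intro v _ hv
      have := Rod1_dep (hv v List.mem_cons_self)
      rw [List.length_nil]
      omega
    | cons w R ih =>
      intro v h hv
      have h1 := Rod1_dep (hv v List.mem_cons_self)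
      have h2 : ∀ t ∈ w :: R, Vi ℓ t := fun t ht => hv t (List.mem_cons_of_mem _ ht)
      rw [List.length_cons]
      rcases Rod1_nb h.adj with ⟨-, b⟩ | ⟨a, b⟩
      · have := ih w h.tail h2
        omega
      · have := Rod1_run (a ▸ h) h2
        omega
  cases T with
  | nil => exact Nat.zero_le _
  | cons v R =>
    have := key R v h hT
    have := Rod1_dep (hT v List.mem_cons_self)
    rw [List.length_cons]
    omega

/-- Climb in the tree from `M ++ L₀` to `L₀`, then follow `T`. -/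
theorem rod_climb {i : ℕ} (M L₀ : List Bool) (hl : (M ++ L₀).length ≤ ht ℓ i) {T : List Rv}
    (h : P (Rd ℓ) ((i, L₀) :: T)) (hT : ∀ M', M' <:+ M → (i, M' ++ L₀) ∉ T) :
    ∃ A, P (Rd ℓ) ((i, M ++ L₀) :: A) ∧ A.length = M.length + T.length ∧
      (∃ C, (i, M ++ L₀) :: A = C ++ (i, L₀) :: T) ∧
      ∀ t ∈ A, t ∈ T ∨ ∃ M', M' <:+ M ∧ t = (i, M' ++ L₀) := by
  induction M with
  | nil => exact ⟨T, h, by simp, ⟨[], rfl⟩, fun t ht => Or.inl ht⟩
  | cons x M ih =>
    obtain ⟨A, a1, a2, ⟨C, a3⟩, a4⟩ := ih (Nat.le_of_succ_le hl)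
      fun M' h' => hT M' (h'.trans (List.suffix_cons x M))
    refine ⟨(i, M ++ L₀) :: A, a1.cons (rd_tr x hl).symm fun hm => ?_, ?_,
      ⟨_ :: C, congrArg _ a3⟩, fun t ht => ?_⟩
    · rcases List.mem_cons.1 hm with e | e
      · simp at e
      · rcases a4 _ e with e | ⟨M', e1, e2⟩
        · exact hT _ List.suffix_rfl e
        · have b1 := e1.length_le
          have b2 := congrArg (fun t : Rv => t.2.length) e2
          simp only [List.length_append, List.length_cons] at b2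
          omega
    · simp only [List.length_cons]
      omega
    · rcases List.mem_cons.1 ht with e | e
      · exact Or.inr ⟨M, List.suffix_cons x M, e⟩
      · exact (a4 t e).imp_right fun ⟨M', e1, e2⟩ => ⟨M', e1.trans (List.suffix_cons x M), e2⟩

/-- Walk down the spine from `j + d` to `j`, then follow `T`. -/
theorem rod_down {j : ℕ} (d : ℕ) (hd : j + d ≤ ℓ + 1) {T : List Rv}
    (h : P (Rd ℓ) ((j, []) :: T)) (hT : ∀ t ∈ T, t.1 ≤ j) :
    ∃ A, P (Rd ℓ) ((j + d, []) :: A) ∧ A.length = d + T.length ∧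
      (∃ C, (j + d, []) :: A = C ++ (j, []) :: T) ∧
      ∀ t ∈ A, t ∈ T ∨ (t.2 = [] ∧ j ≤ t.1 ∧ t.1 < j + d) := by
  induction d with
  | zero => exact ⟨T, h, by simp, ⟨[], rfl⟩, fun t ht => Or.inl ht⟩
  | succ d ih =>
    obtain ⟨A, a1, a2, ⟨C, a3⟩, a4⟩ := ih (by omega)
    refine ⟨(j + d, []) :: A, a1.cons (rd_sp (i := j + d) (by omega)).symm fun hm => ?_, ?_,
      ⟨_ :: C, congrArg _ a3⟩, fun t ht => ?_⟩
    · rcases List.mem_cons.1 hm with e | e
      · simp at e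
      · rcases a4 _ e with e | ⟨-, -, e⟩
        · have := hT _ e
          simp only at this
          omega
        · simp only at e
          omega
    · simp only [List.length_cons]
      omega
    · rcases List.mem_cons.1 ht with rfl | e
      · exact Or.inr ⟨rfl, Nat.le_add_right _ _, Nat.lt_succ_self _⟩
      · exact (a4 t e).imp_right fun ⟨e1, e2, e3⟩ => ⟨e1, e2, Nat.lt_succ_of_lt e3⟩

/-- Walk up the spine from `i` to `ℓ`. -/
theorem rod_up {i : ℕ} (hi : i ≤ ℓ) :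
    ∃ A, P (Rd ℓ) ((i, []) :: A) ∧ A.length + i = ℓ ∧ ∀ t ∈ A, t.2 = [] ∧ i < t.1 ∧ t.1 ≤ ℓ := by
  obtain ⟨n, hn⟩ := Nat.exists_eq_add_of_le hi
  induction n generalizing i with
  | zero => exact ⟨[], P.single _, by simp [hn], by simp⟩
  | succ n ih =>
    obtain ⟨A, a1, a2, a3⟩ := ih (i := i + 1) (by omega) (by omega)
    refine ⟨(i + 1, []) :: A, a1.cons (rd_sp hi) fun hm => ?_, ?_, fun t ht => ?_⟩
    · rcases List.mem_cons.1 hm with e | e
      · simp at e
      · have := (a3 _ e).2.1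
        simp only at this
        omega
    · simp only [List.length_cons]
      omega
    · rcases List.mem_cons.1 ht with rfl | e
      · exact ⟨rfl, Nat.lt_succ_self _, by simp only; omega⟩
      · exact ⟨(a3 t e).1, Nat.lt_of_succ_lt (a3 t e).2.1, (a3 t e).2.2⟩

/-- Go down in the tree to a leaf. -/
theorem rod_dive {i : ℕ} {L : List Bool} (hl : L.length ≤ ht ℓ i) :
    ∃ A, P (Rd ℓ) ((i, L) :: A) ∧ A.length + L.length = ht ℓ i ∧
      ∀ t ∈ A, t.1 = i ∧ L <:+ t.2 ∧ t.2 ≠ L ∧ t.2.length ≤ ht ℓ i := by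
  obtain ⟨n, hn⟩ := Nat.exists_eq_add_of_le hl
  induction n generalizing L with
  | zero => exact ⟨[], P.single _, by simp [hn], by simp⟩
  | succ n ih =>
    have h1 : L.length < ht ℓ i := by omega
    obtain ⟨A, a1, a2, a3⟩ := ih (L := false :: L) h1 (by rw [List.length_cons]; omega)
    have a4 : ∀ t ∈ (i, false :: L) :: A,
        t.1 = i ∧ L <:+ t.2 ∧ t.2 ≠ L ∧ t.2.length ≤ ht ℓ i := fun t ht => by
      rcases List.mem_cons.1 ht with rfl | e
      · exact ⟨rfl, List.suffix_cons _ _, List.cons_ne_self _ _, h1⟩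
      · obtain ⟨b1, b2, -, b3⟩ := a3 t e
        refine ⟨b1, (List.suffix_cons _ _).trans b2, fun e => ?_, b3⟩
        have := b2.length_le
        rw [e, List.length_cons] at this
        omega
    refine ⟨(i, false :: L) :: A, a1.cons (rd_tr false h1) fun hm => (a4 _ hm).2.2.1 rfl, ?_, a4⟩
    simp only [List.length_cons] at a2 ⊢
    omega

/-- The way out through position `0`. -/
theorem rod_hl (h : Vi ℓ u ∨ u = (ℓ + 1, [])) :
    ∃ A, P (Rd ℓ) ((u :: A) ++ [(0, [])]) ∧ A.length + 1 = u.1 + u.2.length ∧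
      (∀ t ∈ A, Vi ℓ t) ∧ ∀ t ∈ A, (t.1 = u.1 ∧ t.2 <:+ u.2) ∨ (t.2 = [] ∧ t.1 < u.1) := by
  obtain ⟨i, L⟩ := u
  have h1 : 1 ≤ i ∧ i ≤ ℓ + 1 ∧ L.length ≤ ht ℓ i := by
    rcases h with h | h
    · exact ⟨h.1, h.le, h.2.2⟩
    · obtain ⟨rfl, rfl⟩ := Prod.mk.inj h
      exact ⟨Nat.le_add_left _ _, le_rfl, Nat.zero_le _⟩
  obtain ⟨A, a1, a2, ⟨C, a3⟩, a4⟩ := rod_down (ℓ := ℓ) (j := 0) (T := []) i (by omega)
    (P.single _) (by simp)
  simp only [Nat.zero_add, List.length_nil, Nat.add_zero, List.not_mem_nil, false_or] at a1 a2 a3 a4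
  obtain ⟨B, b1, b2, ⟨D, b3⟩, b4⟩ := rod_climb L [] (by simpa using h1.2.2) a1
    fun M' _ hm => lt_irrefl _ (a4 _ hm).2.2
  simp only [List.append_nil] at b1 b3 b4
  obtain ⟨E, rfl⟩ : ∃ E, B = E ++ [(0, [])] := by
    rw [a3, ← List.append_assoc] at b3
    cases hx : D ++ C with
    | nil =>
      rw [hx] at b3
      rw [(List.cons.inj b3).2, List.length_nil] at b2
      omega
    | cons y E =>
      rw [hx] at b3
      exact ⟨E, (List.cons.inj b3).2⟩
  have b5 : ∀ t ∈ E, (t.1 = i ∧ t.2 <:+ L) ∨ (t.2 = [] ∧ t.1 < i) := fun t ht => by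
    rcases b4 t (List.mem_append_left _ ht) with e | ⟨M', e1, rfl⟩
    · exact Or.inr ⟨(a4 t e).1, (a4 t e).2.2⟩
    · exact Or.inl ⟨rfl, e1⟩
  refine ⟨E, b1, ?_, fun ⟨j, M⟩ ht => ?_, b5⟩
  · simp only [List.length_append, List.length_singleton] at b2 ⊢
    omega
  · rcases b5 _ ht with ⟨rfl, e⟩ | ⟨rfl, e⟩
    · rcases h with h | h
      · exact ⟨h.1, h.2.1, e.length_le.trans h.2.2⟩
      · obtain ⟨-, rfl⟩ := Prod.mk.inj h
        obtain rfl := List.suffix_nil.1 e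
        exact absurd (List.mem_append_left _ ht) b1.notMem
    · refine ⟨Nat.pos_of_ne_zero ?_, Nat.le_of_lt_succ (e.trans_le h1.2.1), Nat.zero_le _⟩
      rintro rfl
      exact b1.tail.disj ht List.mem_cons_self

theorem Rod1_ls (g : ℕ) : ∃ F : Finset (List Bool),
    (∀ L : List Bool, L.length ≤ g → L ∈ F) ∧ F.card + 1 ≤ 2 ^ (g + 1) := by
  induction g with
  | zero => exact ⟨{[]}, by simp, by simp⟩
  | succ g ih =>
    obtain ⟨F, h1, h2⟩ := ih
    refine ⟨insert [] (F.image (true :: ·) ∪ F.image (false :: ·)), fun L hL => ?_, ?_⟩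
    · rcases L with _ | ⟨_ | _, L⟩
      · exact Finset.mem_insert_self _ _
      · exact Finset.mem_insert_of_mem (Finset.mem_union_right _
          (Finset.mem_image_of_mem _ (h1 L (Nat.le_of_succ_le_succ hL))))
      · exact Finset.mem_insert_of_mem (Finset.mem_union_left _
          (Finset.mem_image_of_mem _ (h1 L (Nat.le_of_succ_le_succ hL))))
    · have a1 := Finset.card_insert_le [] (F.image (true :: ·) ∪ F.image (false :: ·))
      have a2 := Finset.card_union_le (F.image (true :: ·)) (F.image (false :: ·))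
      have a3 : (F.image (true :: ·)).card ≤ F.card := Finset.card_image_le
      have a4 : (F.image (false :: ·)).card ≤ F.card := Finset.card_image_le
      rw [pow_succ]
      omega

theorem Rod1_half (m : ℕ) : ∃ F : Finset Rv,
    (∀ u : Rv, u.1 ≤ m → u.2.length ≤ u.1 - 1 → u ∈ F) ∧ F.card + 1 + m ≤ 2 ^ (m + 1) := by
  induction m with
  | zero =>
    refine ⟨{(0, [])}, fun ⟨i, L⟩ h1 h2 => ?_, by simp⟩
    obtain rfl := Nat.le_zero.1 h1
    simpa using h2
  | succ m ih =>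
    obtain ⟨F, h1, h2⟩ := ih
    obtain ⟨G, h3, h4⟩ := Rod1_ls m
    refine ⟨F ∪ G.image fun L => (m + 1, L), fun ⟨i, L⟩ a b => ?_, ?_⟩
    · rcases Nat.of_le_succ a with a | rfl
      · exact Finset.mem_union_left _ (h1 _ a b)
      · exact Finset.mem_union_right _ (Finset.mem_image_of_mem _ (h3 L b))
    · have a1 := Finset.card_union_le F (G.image fun L => (m + 1, L))
      have a2 : (G.image fun L => ((m + 1, L) : Rv)).card ≤ G.card := Finset.card_image_le
      rw [pow_succ]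
      omega

theorem rod_card {h : ℕ} (hh : ℓ ≤ 2 * h + 1) : ∃ F : Finset Rv,
    (∀ u : Rv, u.1 ≤ ℓ + 1 → u.2.length ≤ ht ℓ u.1 → u ∈ F) ∧ F.card + 3 + 2 * h ≤ 6 * 2 ^ h := by
  obtain ⟨F, h1, h2⟩ := Rod1_half (h + 1)
  obtain ⟨G, h3, h4⟩ := Rod1_half h
  refine ⟨F ∪ G.image (rf ℓ), fun u a b => ?_, ?_⟩
  · unfold ht at b
    by_cases c : u.1 ≤ h + 1
    · exact Finset.mem_union_left _ (h1 u c (by omega))
    · refine Finset.mem_union_right _ (Finset.mem_image.2 ⟨rf ℓ u, h3 _ ?_ ?_, rf_rf a⟩) <;>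
        simp only [rf] <;> omega
  · have a1 := Finset.card_union_le F (G.image (rf ℓ))
    have a2 : (G.image (rf ℓ)).card ≤ G.card := Finset.card_image_le
    rw [pow_succ, pow_succ] at h2
    rw [pow_succ] at h4
    omega

end PS
end

-- merged part: Pool.Agent.Work.MP_3e1eec_co.O.Up1
section
/-! The graph has no long path.
Plan.  Call `v` inner if `∃ X c, In H ℓ X c v`; count with `List.countP` (classical).
Pull back: a path `ph X c p :: T` with `Vi ℓ p` and `T` inner is the image under `ph X c` of a path of `Rd ℓ` with `Vi` vertices (`nb_in`, `rd_va`, `bl_in`, `ph_end`).  Hence (`rod_run1`, `nb_bl`) a path `a :: R` with `a` in a block and `R` inner has `R.length ≤ ℓ`, and (`rod_run2`) an inner path has at most `2 ℓ` vertices.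
Main claim, strong induction on the length of `l`: if `P (a :: l)`, `Bl X a`, `n = ph X c₀ (0, [])`, `n = a ∨ n ∉ a :: l` and `ph X c₀ (1, []) ∉ l`, there is `D : Finset B` such that `l` has at most `ℓ * D.card` inner vertices and every `Y ∈ D` has two ports of different colours in `n :: a :: l`.  (If the next vertex is in the block keep `n`.  Otherwise `a = ph X c (0, [])` with `c ≠ c₀`; split off the maximal inner run; it ends the list, or the next vertex is a port `n'` of a block `X'` entered from its rod (`adj_va`, `nb_bl`); `X ∉ D'` since there are only three colours.)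
Any path has at most `(s + 1) ℓ` inner vertices: drop block vertices at the head; then split off the first inner run (reverse it) and use the claim.  The other vertices lie in a set with at most `q.card + 3 s` elements (`adj_va`; lists with at most one vertex are trivial). -/

open SimpleGraph

namespace PS
variable {B : Type} [Fintype B] {H : Host B} {ℓ : ℕ} {q : Finset B}

/-- Inner vertices. -/
def Up1_in (H : Host B) (ℓ : ℕ) (v : Wv B) : Prop := ∃ X c, In H ℓ X c v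

open Classical in
/-- The number of inner vertices. -/
noncomputable def Up1_ct (H : Host B) (ℓ : ℕ) (l : List (Wv B)) : ℕ :=
  l.countP fun v => decide (Up1_in H ℓ v)

theorem Up1_bl {X : B} {v : Wv B} (h : Bl H ℓ q X v) : ¬ Up1_in H ℓ v :=
  fun ⟨_, _, h'⟩ => bl_in h h'

theorem Up1_neg {v : Wv B} (h : ¬ Up1_in H ℓ v) (l : List (Wv B)) :
    Up1_ct H ℓ (v :: l) = Up1_ct H ℓ l := by
  simp [Up1_ct, h]

theorem Up1_app {R : List (Wv B)} (h : ∀ t ∈ R, Up1_in H ℓ t) (l : List (Wv B)) :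
    Up1_ct H ℓ (R ++ l) = R.length + Up1_ct H ℓ l := by
  unfold Up1_ct
  rw [List.countP_append, List.countP_eq_length.2 fun t ht => by simpa using h t ht]

theorem Up1_split {V : Type} (pr : V → Prop) (l : List V) : ∃ R l₂, l = R ++ l₂ ∧ (∀ t ∈ R, pr t) ∧
    (l₂ = [] ∨ ∃ n l₃, l₂ = n :: l₃ ∧ ¬ pr n) := by
  induction l with
  | nil => exact ⟨[], [], rfl, by simp, Or.inl rfl⟩
  | cons a l ih =>
    by_cases ha : pr a
    · obtain ⟨R, l₂, rfl, h1, h2⟩ := ih
      exact ⟨a :: R, l₂, rfl, by simpa [ha] using h1, h2⟩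
    · exact ⟨[], a :: l, rfl, by simp, Or.inr ⟨a, l, rfl, ha⟩⟩

theorem Up1_pull {X : B} {c : Fin 3} (T : List (Wv B)) : ∀ p, Vi ℓ p →
    P (G0 H ℓ q) (ph H ℓ X c p :: T) → (∀ t ∈ T, Up1_in H ℓ t) →
    ∃ T', T = T'.map (ph H ℓ X c) ∧ P (Rd ℓ) (p :: T') ∧ ∀ t ∈ T', Vi ℓ t := by
  induction T with
  | nil => exact fun p _ _ _ => ⟨[], rfl, P.single p, by simp⟩
  | cons t T ih =>
    intro p hp h hT
    obtain ⟨r, hr, rfl⟩ := nb_in hp h.adj
    have hi := hT _ List.mem_cons_self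
    have hv : Vi ℓ r := by
      rcases rd_va hr.symm with e | rfl | rfl
      · exact e
      · exact absurd hi (Up1_bl (bl_port (q := q) X c))
      · rw [ph_end] at hi
        exact absurd hi (Up1_bl (bl_port (q := q) _ c))
    obtain ⟨T', rfl, h1, h2⟩ := ih r hv h.tail fun t ht => hT t (List.mem_cons_of_mem _ ht)
    exact ⟨r :: T', rfl, h1.cons hr fun hm => h.notMem (List.mem_map_of_mem (f := ph H ℓ X c) hm),
      by simpa [hv] using h2⟩

theorem Up1_run1 (h1 : 1 ≤ ℓ) {X : B} {a : Wv B} {R : List (Wv B)} (ha : Bl H ℓ q X a)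
    (h : P (G0 H ℓ q) (a :: R)) (hR : ∀ t ∈ R, Up1_in H ℓ t) : R.length ≤ ℓ := by
  cases R with
  | nil => simp
  | cons v R =>
    rcases nb_bl ha h.adj with e | ⟨c, rfl, rfl⟩
    · exact absurd (hR _ List.mem_cons_self) (Up1_bl e)
    · have hv : Vi ℓ (1, []) := ⟨le_rfl, h1, Nat.zero_le _⟩
      obtain ⟨T, rfl, h2, h3⟩ := Up1_pull R _ hv h.tail fun t ht => hR t (List.mem_cons_of_mem _ ht)
      have h4 : ∀ t ∈ (1, []) :: T, Vi ℓ t := by simpa [hv] using h3
      simpa using rod_run1 (h2.cons (rd_sp (Nat.zero_le ℓ)) fun hm => by simpa using (h4 _ hm).1) h4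

theorem Up1_run2 {R : List (Wv B)} (h : P (G0 H ℓ q) R) (hR : ∀ t ∈ R, Up1_in H ℓ t) :
    R.length ≤ 2 * ℓ := by
  cases R with
  | nil => simp
  | cons v R =>
    obtain ⟨X, c, p, hp, rfl⟩ := hR _ List.mem_cons_self
    obtain ⟨T, rfl, h2, h3⟩ := Up1_pull R _ hp h fun t ht => hR t (List.mem_cons_of_mem _ ht)
    simpa using rod_run2 h2 (by simpa [hp] using h3)

theorem Up1_exit {R l : List (Wv B)} {n : Wv B} (h : P (G0 H ℓ q) (R ++ n :: l)) (h0 : R ≠ [])
    (hR : ∀ t ∈ R, Up1_in H ℓ t) (hn : ¬ Up1_in H ℓ n) :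
    ∃ X c, n = ph H ℓ X c (0, []) ∧ ph H ℓ X c (1, []) ∉ l := by
  obtain ⟨R₀, u, rfl⟩ := (List.eq_nil_or_concat' R).resolve_left h0
  have ha : (G0 H ℓ q).Adj u n := P.mid (A := R₀) (B := l) (by simpa using h)
  obtain ⟨X, hX⟩ := (adj_va ha.symm).resolve_right hn
  rcases nb_bl hX ha.symm with e | ⟨c, rfl, rfl⟩
  · exact absurd (hR u (by simp)) (Up1_bl e)
  · exact ⟨X, c, rfl, fun hm => h.disj (by simp) (List.mem_cons_of_mem _ hm)⟩

theorem Up1_main (h1 : 1 ≤ ℓ) (N : ℕ) : ∀ (l : List (Wv B)) (a : Wv B) (X : B) (c₀ : Fin 3),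
    l.length < N → P (G0 H ℓ q) (a :: l) → Bl H ℓ q X a → ph H ℓ X c₀ (0, []) ∉ l →
    ph H ℓ X c₀ (1, []) ∉ l → ∃ D : Finset B, Up1_ct H ℓ l ≤ ℓ * D.card ∧ ∀ Y ∈ D, ∃ c c', c ≠ c' ∧
      ph H ℓ Y c (0, []) ∈ ph H ℓ X c₀ (0, []) :: a :: l ∧
      ph H ℓ Y c' (0, []) ∈ ph H ℓ X c₀ (0, []) :: a :: l := by
  classical
  induction N with
  | zero => exact fun _ _ _ _ h => absurd h (Nat.not_lt_zero _)
  | succ N ih =>
    intro l a X c₀ hN h ha hn hn1
    cases l with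
    | nil => exact ⟨∅, by simp [Up1_ct], by simp⟩
    | cons v l =>
      rcases nb_bl ha h.adj with e | ⟨c, rfl, hv⟩
      · obtain ⟨D, h2, h3⟩ := ih l v X c₀ (by simpa using hN) h.tail e
          (fun hm => hn (List.mem_cons_of_mem _ hm)) fun hm => hn1 (List.mem_cons_of_mem _ hm)
        refine ⟨D, by rwa [Up1_neg (Up1_bl e)], fun Y hY => ?_⟩
        obtain ⟨d, d', hd, h4, h5⟩ := h3 Y hY
        have hs := (List.sublist_cons_self a (v :: l)).cons_cons (ph H ℓ X c₀ (0, []))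
        exact ⟨d, d', hd, hs.subset h4, hs.subset h5⟩
      have hc : c ≠ c₀ := fun e => hn1 (by rw [hv, e]; exact List.mem_cons_self)
      obtain ⟨R, l₂, he, hR, h2⟩ := Up1_split (Up1_in H ℓ) (v :: l)
      have hR0 : R ≠ [] := by
        rintro rfl
        rcases h2 with rfl | ⟨n, l₃, rfl, h3⟩
        · simp at he
        · exact h3 ((List.cons.inj he).1 ▸ hv ▸ ⟨X, c, in_one h1 X c⟩)
      rw [he] at h hn hn1 hN ⊢
      have hl := Up1_run1 h1 ha (P.left (A := _ :: R) h) hR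
      have hX : ∃ d d', d ≠ d' ∧
          ph H ℓ X d (0, []) ∈ ph H ℓ X c₀ (0, []) :: ph H ℓ X c (0, []) :: (R ++ l₂) ∧
          ph H ℓ X d' (0, []) ∈ ph H ℓ X c₀ (0, []) :: ph H ℓ X c (0, []) :: (R ++ l₂) :=
        ⟨c, c₀, hc, by simp, by simp⟩
      rw [Up1_app hR]
      rcases h2 with rfl | ⟨n, l₃, rfl, h3⟩
      · exact ⟨{X}, by simpa [Up1_ct] using hl, by simpa using hX⟩
      obtain ⟨X', c', rfl, h4⟩ := Up1_exit h.tail hR0 hR h3
      have h5 := h.tail.right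
      obtain ⟨D, h6, h7⟩ := ih l₃ _ X' c'
        (by simp only [List.length_append, List.length_cons] at hN; omega) h5 (bl_port X' c')
        h5.notMem h4
      have h8 : ∀ w ∈ ph H ℓ X' c' (0, []) :: ph H ℓ X' c' (0, []) :: l₃,
          w ∈ R ++ ph H ℓ X' c' (0, []) :: l₃ := fun w hw =>
        List.mem_append_right _ (by simpa using hw)
      have hXD : X ∉ D := fun hm => by
        obtain ⟨d, d', hd, h9, h10⟩ := h7 X hm
        have a1 : d ≠ c₀ := fun e => hn (e ▸ h8 _ h9)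
        have a2 : d' ≠ c₀ := fun e => hn (e ▸ h8 _ h10)
        have a3 : d ≠ c := fun e => h.notMem (e ▸ h8 _ h9)
        have a4 : d' ≠ c := fun e => h.notMem (e ▸ h8 _ h10)
        omega
      refine ⟨insert X D, ?_, fun Y hY => ?_⟩
      · rw [Up1_neg h3, Finset.card_insert_of_notMem hXD, Nat.mul_succ]
        omega
      · rcases Finset.mem_insert.1 hY with rfl | hY
        · exact hX
        · obtain ⟨d, d', hd, h9, h10⟩ := h7 Y hY
          exact ⟨d, d', hd, List.mem_cons_of_mem _ (List.mem_cons_of_mem _ (h8 _ h9)),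
            List.mem_cons_of_mem _ (List.mem_cons_of_mem _ (h8 _ h10))⟩

theorem Up1_cnt (h1 : 1 ≤ ℓ) (l : List (Wv B)) (h : P (G0 H ℓ q) l) :
    Up1_ct H ℓ l ≤ (Fintype.card B + 1) * ℓ := by
  induction l with
  | nil => simp [Up1_ct]
  | cons a l ih =>
    by_cases ha : Up1_in H ℓ a
    swap
    · rw [Up1_neg ha]; exact ih h.tail
    obtain ⟨R, l₂, he, hR, h2⟩ := Up1_split (Up1_in H ℓ) (a :: l)
    have hR0 : R ≠ [] := by
      rintro rfl
      rcases h2 with rfl | ⟨n, l₃, rfl, h3⟩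
      · simp at he
      · exact h3 ((List.cons.inj he).1 ▸ ha)
    rw [he] at h ⊢
    rw [Up1_app hR]
    rcases h2 with rfl | ⟨n, l₃, rfl, h3⟩
    · have h4 := Up1_run2 h.left hR
      have h5 : 2 * ℓ ≤ (Fintype.card B + 1) * ℓ :=
        Nat.mul_le_mul_right ℓ (Nat.succ_le_succ H.pos)
      simp only [Up1_ct, List.countP_nil]
      omega
    obtain ⟨X, c, rfl, h4⟩ := Up1_exit h hR0 hR h3
    obtain ⟨D, h6, -⟩ := Up1_main h1 _ l₃ _ X c (Nat.lt_succ_self _) h.right (bl_port X c)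
      h.right.notMem h4
    have h7 : P (G0 H ℓ q) (R ++ [ph H ℓ X c (0, [])]) := P.left (B := l₃) (by simpa using h)
    have h8 := Up1_run1 h1 (R := R.reverse) (bl_port X c) (by simpa using h7.reverse)
      fun t ht => hR t (List.mem_reverse.1 ht)
    have h9 := Nat.mul_le_mul_left ℓ D.card_le_univ
    rw [List.length_reverse] at h8
    rw [Up1_neg h3, Nat.succ_mul, mul_comm _ ℓ]
    omega

theorem Up1_va {l : List (Wv B)} : ∀ {a}, P (G0 H ℓ q) (a :: l) → ∀ v ∈ l, Va H ℓ q v := by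
  induction l with
  | nil => simp
  | cons b l ih =>
    intro a h v hv
    rcases List.mem_cons.1 hv with rfl | hv
    · exact adj_va h.adj.symm
    · exact ih h.tail v hv

theorem pf0 (h1 : 1 ≤ ℓ) : PF (kk (Fintype.card B) q.card ℓ) (G0 H ℓ q) := by
  classical
  intro l h
  have hp := H.pos
  unfold kk
  match l, h with
  | [], _ => simp
  | [_], _ => simp only [List.length_singleton]; omega
  | a :: b :: l, h =>
    have h2 := Up1_cnt h1 _ h
    have h3 := List.length_eq_countP_add_countP (fun v => decide (Up1_in H ℓ v)) (l := a :: b :: l)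
    have h4 : ((a :: b :: l).filter fun v => decide ¬ decide (Up1_in H ℓ v) = true).toFinset ⊆
        q.image Sum.inl ∪ Finset.univ.image fun x : B × Fin 3 => ph H ℓ x.1 x.2 (0, []) := by
      intro v hv
      obtain ⟨h5, h6⟩ := List.mem_filter.1 (List.mem_toFinset.1 hv)
      have h7 : Va H ℓ q v := by
        rcases List.mem_cons.1 h5 with rfl | h5
        · exact adj_va h.adj
        · exact Up1_va h v h5
      obtain ⟨X, ⟨rfl, h8⟩ | ⟨c, rfl⟩⟩ := h7.resolve_right (by simpa [Up1_in] using h6)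
      · exact Finset.mem_union_left _ (Finset.mem_image_of_mem _ h8)
      · exact Finset.mem_union_right _ (Finset.mem_image.2 ⟨(X, c), Finset.mem_univ _, rfl⟩)
    have h5 := (Finset.card_le_card h4).trans ((Finset.card_union_le _ _).trans
      (add_le_add Finset.card_image_le Finset.card_image_le))
    rw [List.toFinset_card_of_nodup (h.1.filter _), ← List.countP_eq_length_filter,
      Finset.card_univ, Fintype.card_prod, Fintype.card_fin] at h5
    unfold Up1_ct at h2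
    omega

end PS
end

-- merged part: Pool.Agent.Work.MP_3e1eec_co.O.Up2
section
/-! The tail: a path through all blocks.
Plan.  `walk`: induction on `r` from the end.  The segment of `Z j` is the port of colour `io j`, the third port (colour `-(io j + oc j)`), `Sum.inl (Z j)` if `Z j ∈ q`, then the image under `ph (Z j) (oc j)` of `(0, []), …, (ℓ, [])` (`map_ph`, `rd_sp`, `adj_bl`); the last vertex is adjacent to `ph (Z j) (oc j) (ℓ + 1, [])`, the first vertex of the next segment (`ph_end`).  Disjointness: `bl_eq`, `bl_in`, `in_eq`.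
`tail`: `Z` from `H.ham X d a`; `s` is even and positive (`half`, `pos`); `oc j = if j = s - 1 then σ else if j % 2 = 0 then d else a`, `io 0 = e`, `io (j + 1) = oc j`; `Z (s - 1) = m a X`; `Z` maps `range s` onto `B`, so the sum of the indicator of `q` is `q.card`.
`tail2`: if `c = c'` take for `d, a` the two other colours, `e = c'`, `σ = a`; otherwise `a = e = c'`, `σ = c`, `d` the third colour.
`skip`: write `A = A₁ ++ v :: A₂`; if `A₂ = w :: _`, the two list neighbours of `v` are in the block (`nb_bl`), hence adjacent (`adj_bl`).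
`tail3`: induction on `S` (`ph_end`, `in_one`, `In.rev`). -/

open SimpleGraph

namespace PS
variable {B : Type} [Fintype B] {H : Host B} {ℓ : ℕ} {q : Finset B}

theorem Up2_rod (X : B) (o : Fin 3) (k : ℕ) (hk : k ≤ ℓ + 1) (T : List (Wv B))
    (hT : P (G0 H ℓ q) (ph H ℓ X o (k, []) :: T)) (hd : ∀ j, j < k → ph H ℓ X o (j, []) ∉ T) :
    ∃ A, P (G0 H ℓ q) (ph H ℓ X o (0, []) :: A) ∧ A.length = T.length + k ∧
      ∀ v ∈ ph H ℓ X o (0, []) :: A,
        v ∈ ph H ℓ X o (k, []) :: T ∨ ∃ j, j ≤ ℓ ∧ v = ph H ℓ X o (j, []) := by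
  induction k generalizing T with
  | zero => exact ⟨T, hT, rfl, fun v hv => Or.inl hv⟩
  | succ k ih =>
    have hn : ∀ j, j < k + 1 → ph H ℓ X o (j, []) ∉ ph H ℓ X o (k + 1, []) :: T := by
      intro j hj hm
      rcases List.mem_cons.1 hm with e | e
      · have := congrArg Prod.fst (ph_inj1 (p := (j, [])) (r := (k + 1, [])) (by omega) hk e)
        simp only at this
        omega
      · exact hd j hj e
    obtain ⟨A, h1, h2, h3⟩ := ih (by omega) _
      (hT.cons (adj_ph (rd_sp (by omega))) (hn k (by omega))) fun j hj => hn j (by omega)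
    refine ⟨A, h1, by rw [h2, List.length_cons]; omega, fun v hv => ?_⟩
    rcases h3 v hv with e | e
    · rcases List.mem_cons.1 e with e | e
      · exact Or.inr ⟨k, by omega, e⟩
      · exact Or.inl e
    · exact Or.inr e

theorem Up2_in (X : B) (o : Fin 3) {j : ℕ} (h : 1 ≤ j) (h' : j ≤ ℓ) :
    In H ℓ X o (ph H ℓ X o (j, [])) := ⟨_, ⟨h, h', Nat.zero_le _⟩, rfl⟩

theorem Up2_cl (X : B) (o : Fin 3) {j : ℕ} (h : j ≤ ℓ) :
    Bl H ℓ q X (ph H ℓ X o (j, [])) ∨ In H ℓ X o (ph H ℓ X o (j, [])) := by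
  rcases Nat.eq_zero_or_pos j with rfl | h0
  · exact Or.inl (bl_port X o)
  · exact Or.inr (Up2_in X o h0 h)

theorem Up2_third {i o : Fin 3} (h : i ≠ o) : ∃ t : Fin 3, t ≠ i ∧ t ≠ o := by
  revert i o
  decide

open Classical in
theorem Up2_seg {X : B} {i o : Fin 3} (hio : i ≠ o) {k : ℕ} (hk : k ≤ ℓ + 1) {T : List (Wv B)}
    (hT : P (G0 H ℓ q) (ph H ℓ X o (k, []) :: T))
    (hb : ∀ v ∈ ph H ℓ X o (k, []) :: T, ¬ Bl H ℓ q X v) (hi : ∀ v ∈ T, ¬ In H ℓ X o v) :
    ∃ A, P (G0 H ℓ q) (ph H ℓ X i (0, []) :: A) ∧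
      A.length = T.length + k + 2 + (if X ∈ q then 1 else 0) ∧
      ∀ v ∈ ph H ℓ X i (0, []) :: A,
        v ∈ ph H ℓ X o (k, []) :: T ∨ Bl H ℓ q X v ∨ In H ℓ X o v := by
  obtain ⟨A, h1, h2, h3⟩ := Up2_rod X o k hk T hT fun j hj hm =>
    (Up2_cl (q := q) X o (by omega)).elim (hb _ (List.mem_cons_of_mem _ hm)) (hi _ hm)
  obtain ⟨t, hti, hto⟩ := Up2_third hio
  have hp : ∀ c, c ≠ o → ph H ℓ X c (0, []) ∉ ph H ℓ X o (0, []) :: A := fun c hc hm => by
    rcases h3 _ hm with e | ⟨j, hj, e⟩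
    · exact hb _ e (bl_port X c)
    · exact hc (ph_inj (Nat.zero_le _) (hj.trans (Nat.le_succ _)) e).1
  have hA : ∀ v ∈ ph H ℓ X o (0, []) :: A,
      v ∈ ph H ℓ X o (k, []) :: T ∨ Bl H ℓ q X v ∨ In H ℓ X o v := fun v hv =>
    (h3 v hv).imp_right fun ⟨j, hj, e⟩ => e ▸ Up2_cl X o hj
  have hne : ∀ {c c' : Fin 3}, c ≠ c' → ph H ℓ X c (0, []) ≠ ph H ℓ X c' (0, []) :=
    fun h e => h (ph_port e).1
  by_cases hq : X ∈ q
  · have b : Bl H ℓ q X (Sum.inl X) := Or.inl ⟨rfl, hq⟩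
    have p1 := h1.cons (adj_bl b (bl_port X o) ph_inl.symm) fun hm => by
      rcases h3 _ hm with e | ⟨j, -, e⟩
      · exact hb _ e b
      · exact ph_inl e.symm
    have p2 := p1.cons (adj_bl (bl_port X t) b ph_inl) fun hm =>
      (List.mem_cons.1 hm).elim ph_inl (hp t hto)
    have p3 := p2.cons (adj_bl (bl_port X i) (bl_port X t) (hne hti.symm)) fun hm =>
      (List.mem_cons.1 hm).elim (hne hti.symm) fun hm =>
        (List.mem_cons.1 hm).elim ph_inl (hp i hio)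
    refine ⟨_, p3, by simp only [List.length_cons, h2, if_pos hq], fun v hv => ?_⟩
    rcases List.mem_cons.1 hv with rfl | hv
    · exact Or.inr (Or.inl (bl_port X i))
    rcases List.mem_cons.1 hv with rfl | hv
    · exact Or.inr (Or.inl (bl_port X t))
    rcases List.mem_cons.1 hv with rfl | hv
    · exact Or.inr (Or.inl b)
    · exact hA v hv
  · have p2 := h1.cons (adj_bl (bl_port X t) (bl_port X o) (hne hto)) (hp t hto)
    have p3 := p2.cons (adj_bl (bl_port X i) (bl_port X t) (hne hti.symm)) fun hm =>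
      (List.mem_cons.1 hm).elim (hne hti.symm) (hp i hio)
    refine ⟨_, p3, by simp only [List.length_cons, h2, if_neg hq], fun v hv => ?_⟩
    rcases List.mem_cons.1 hv with rfl | hv
    · exact Or.inr (Or.inl (bl_port X i))
    rcases List.mem_cons.1 hv with rfl | hv
    · exact Or.inr (Or.inl (bl_port X t))
    · exact hA v hv

theorem Up2_end (h1 : 1 ≤ ℓ) {U : B} {c : Fin 3} {L : List (Wv B)} (hL : ∀ u ∈ L, ¬ In H ℓ U c u)
    (d : Fin 3) (e : ph H ℓ U c (ℓ + 1, []) = ph H ℓ (H.m c U) d (0, [])) :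
    ph H ℓ (H.m c U) d (1, []) ∉ L := by
  rw [ph_end] at e
  obtain rfl := (ph_port e).1
  have h := (in_one (H := H) h1 (H.m c U) c).rev
  rw [H.inv] at h
  exact fun hm => hL _ hm h

open Classical in
theorem walk (h1 : 1 ≤ ℓ) {s : ℕ} (Z : ℕ → B) (io oc : ℕ → Fin 3)
    (hZ : ∀ i j, i < s → j < s → Z i = Z j → i = j)
    (hm : ∀ j, j + 1 < s → Z (j + 1) = H.m (oc j) (Z j) ∧ io (j + 1) = oc j)
    (hc : ∀ j, j < s → io j ≠ oc j) (r j : ℕ) (hj : j + (r + 1) = s) :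
    ∃ A, P (G0 H ℓ q) (ph H ℓ (Z j) (io j) (0, []) :: A) ∧
      A.length + 1 = ∑ i ∈ Finset.Ico j s, (3 + ℓ + if Z i ∈ q then 1 else 0) ∧
      ∀ v ∈ ph H ℓ (Z j) (io j) (0, []) :: A, ∃ i, j ≤ i ∧ i < s ∧
        (Bl H ℓ q (Z i) v ∨ In H ℓ (Z i) (oc i) v) := by
  induction r generalizing j with
  | zero =>
    have hl := Up2_in (H := H) (Z j) (oc j) h1 le_rfl
    obtain ⟨A, a1, a2, a3⟩ := Up2_seg (q := q) (hc j (by omega)) (Nat.le_succ ℓ) (P.single _)
      (fun v hv b => bl_in b (List.mem_singleton.1 hv ▸ hl)) (fun v hv => by simp at hv)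
    refine ⟨A, a1, ?_, fun v hv => ⟨j, le_rfl, by omega, ?_⟩⟩
    · rw [← hj, zero_add, Nat.Ico_succ_singleton, Finset.sum_singleton, a2, List.length_nil]
      omega
    · exact (a3 v hv).elim (fun e => Or.inr (List.mem_singleton.1 e ▸ hl)) id
  | succ r ih =>
    obtain ⟨T, t1, t2, t3⟩ := ih (j + 1) (by omega)
    obtain ⟨e1, e2⟩ := hm j (by omega)
    have e3 : ph H ℓ (Z (j + 1)) (io (j + 1)) (0, []) = ph H ℓ (Z j) (oc j) (ℓ + 1, []) := by
      rw [e1, e2, ph_end]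
    rw [e3] at t1 t3
    obtain ⟨A, a1, a2, a3⟩ := Up2_seg (hc j (by omega)) le_rfl t1
      (fun v hv b => by
        obtain ⟨i, i1, i2, i3 | i3⟩ := t3 v hv
        · have := hZ j i (by omega) i2 (bl_eq b i3)
          omega
        · exact bl_in b i3)
      (fun v hv b => by
        obtain ⟨i, i1, i2, i3 | i3⟩ := t3 v (List.mem_cons_of_mem _ hv)
        · exact bl_in i3 b
        · obtain ⟨f1, f2 | f2⟩ := in_eq b i3
          · have := hZ i j i2 (by omega) f2
            omega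
          · obtain rfl := hZ i (j + 1) i2 (by omega) (f2.trans e1.symm)
            exact hc _ i2 (e2.trans f1))
    refine ⟨A, a1, ?_, fun v hv => ?_⟩
    · rw [Finset.sum_eq_sum_Ico_succ_bot (by omega), ← t2, a2]
      omega
    · rcases a3 v hv with e | e
      · obtain ⟨i, i1, i2⟩ := t3 v e
        exact ⟨i, by omega, i2⟩
      · exact ⟨j, le_rfl, by omega, e⟩

theorem tail (h1 : 1 ≤ ℓ) (X : B) {d a e σ : Fin 3} (ha : a ≠ d) (he : e ≠ d) (hσ : σ ≠ d) :
    ∃ A, P (G0 H ℓ q) (ph H ℓ X e (0, []) :: A) ∧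
      kk (Fintype.card B) q.card ℓ ≤ A.length + 2 + ℓ ∧
      ∀ v ∈ ph H ℓ X e (0, []) :: A, ∀ Y c, In H ℓ Y c v → c = d ∨
        (c = a ∧ Y ≠ X ∧ Y ≠ H.m a X) ∨ (c = σ ∧ (Y = H.m a X ∨ H.m c Y = H.m a X)) := by
  classical
  obtain ⟨Z, z0, z1, z2, z3⟩ := H.ham X d a ha
  have hp := H.pos
  have hh := H.half
  obtain ⟨n, hn⟩ : ∃ n, Fintype.card B = n + 1 := ⟨Fintype.card B - 1, by omega⟩
  have z4 : Z n = H.m a X := by
    rw [← z3, hn, z1, if_neg (by omega), H.inv]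
  let oc : ℕ → Fin 3 := fun j => if j = n then σ else if j % 2 = 0 then d else a
  obtain ⟨A, a1, a2, a3⟩ := walk (H := H) (q := q) h1 Z (fun j => if j = 0 then e else oc (j - 1))
    oc z2 (fun j hj => ⟨by rw [z1]; simp only [oc]; rw [if_neg (show j ≠ n by omega)], by simp⟩)
    (fun j hj => by
      clear * - j e oc n σ d a B H ℓ hh hn he hσ hj ha
      simp only [oc]
      split_ifs <;> omega) n 0 (by omega)
  rw [z0, if_pos rfl] at a1 a3
  refine ⟨A, a1, ?_, fun v hv Y c hY => ?_⟩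
  · have hi : Set.InjOn Z (Finset.range (Fintype.card B)) := fun i hi j hj =>
      z2 i j (Finset.mem_range.1 hi) (Finset.mem_range.1 hj)
    have hu : (Finset.range (Fintype.card B)).image Z = Finset.univ :=
      Finset.eq_univ_of_card _ (by rw [Finset.card_image_of_injOn hi, Finset.card_range])
    have hs := Finset.sum_image (f := fun Y => 3 + ℓ + if Y ∈ q then 1 else 0) hi
    rw [hu, Finset.range_eq_Ico, Finset.sum_add_distrib] at hs
    simp only [Finset.sum_const, Finset.card_univ, smul_eq_mul, Finset.sum_ite_mem,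
      Finset.univ_inter, mul_one] at hs
    have h2 : A.length + 1 = Fintype.card B * (3 + ℓ) + q.card := a2.trans hs.symm
    unfold kk
    clear * - B q ℓ A Z a2 hs; nlinarith
  · obtain ⟨i, -, i2, i3 | i3⟩ := a3 v hv
    · exact absurd hY (bl_in i3)
    obtain ⟨f1, f2⟩ := in_eq hY i3
    simp only [oc] at f1
    split_ifs at f1 with g1 g2
    · rw [g1, z4] at f2
      exact Or.inr (Or.inr ⟨f1, f2.imp Eq.symm Eq.symm⟩)
    · exact Or.inl f1
    · have k1 : Z i ≠ X := fun e => by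
        have := z2 i 0 i2 hp (e.trans z0.symm)
        omega
      have k2 : Z i ≠ H.m a X := fun e => g1 (z2 i n i2 (by omega) (e.trans z4.symm))
      subst f1
      refine Or.inr (Or.inl ⟨rfl, ?_, ?_⟩) <;> rintro rfl
      · exact f2.elim k1 k2
      · exact f2.elim k2 fun e => k1 (e.trans (H.inv _ _))

theorem tail2 (h1 : 1 ≤ ℓ) {U Y : B} {c c' : Fin 3} (h : Gt H U c Y c') :
    ∃ A, P (G0 H ℓ q) (ph H ℓ Y c' (0, []) :: A) ∧
      kk (Fintype.card B) q.card ℓ ≤ A.length + 2 + ℓ ∧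
      ∀ v ∈ ph H ℓ Y c' (0, []) :: A, ¬ In H ℓ U c v ∧ ¬ In H ℓ Y c' v := by
  by_cases hc : c = c'
  · subst hc
    obtain ⟨d, a, g1, g2, g3⟩ : ∃ d a : Fin 3, a ≠ d ∧ c ≠ d ∧ c ≠ a := by
      clear h
      revert c
      decide
    obtain ⟨A, a1, a2, a3⟩ := tail (H := H) (q := q) h1 Y g1 g2 g1
    have k : ∀ v ∈ ph H ℓ Y c (0, []) :: A, ∀ W, ¬ In H ℓ W c v := fun v hv W b => by
      rcases a3 v hv W c b with e | e | e
      exacts [g2 e, g3 e.1, g3 e.1]
    exact ⟨A, a1, a2, fun v hv => ⟨k v hv U, k v hv Y⟩⟩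
  · obtain ⟨d, g1, g2⟩ := Up2_third hc
    obtain ⟨k1, k2⟩ := h.resolve_left hc
    obtain ⟨A, a1, a2, a3⟩ := tail (H := H) (q := q) h1 Y g2.symm g2.symm g1.symm
    refine ⟨A, a1, a2, fun v hv => ⟨fun b => ?_, fun b => ?_⟩⟩
    · rcases a3 v hv U c b with e | e | ⟨-, e | e⟩
      exacts [g1 e.symm, hc e.1, k1 e.symm, k2 e.symm]
    · rcases a3 v hv Y c' b with e | e | e
      exacts [g2 e.symm, e.2.1 rfl, hc e.1.symm]

theorem skip {x v : Wv B} {A : List (Wv B)} {X : B} (h : P (G0 H ℓ q) (x :: A))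
    (hv : Bl H ℓ q X v) (hne : v ≠ x)
    (hn : ∀ c, v = ph H ℓ X c (0, []) → ph H ℓ X c (1, []) ∉ x :: A) :
    ∃ A', P (G0 H ℓ q) (x :: A') ∧ A.length ≤ A'.length + 1 ∧ ∀ u ∈ A', u ∈ A ∧ u ≠ v := by
  induction A generalizing x with
  | nil => exact ⟨[], h, Nat.zero_le _, fun u hu => by simp at hu⟩
  | cons y A ih =>
    by_cases hy : v = y
    · subst hy
      have k : ∀ u ∈ x :: v :: A, (G0 H ℓ q).Adj v u → Bl H ℓ q X u := fun u hu a =>
        (nb_bl hv a).resolve_right fun ⟨c, e1, e2⟩ => hn c e1 (e2 ▸ hu)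
      refine ⟨A, ?_, le_rfl, fun u hu => ⟨List.mem_cons_of_mem _ hu, ?_⟩⟩
      · cases A with
        | nil => exact P.single x
        | cons w A =>
          have hx : x ∉ w :: A := fun hm => h.notMem (List.mem_cons_of_mem _ hm)
          exact h.tail.tail.cons (adj_bl (k x (by simp) h.adj.symm) (k w (by simp) h.tail.adj)
            fun e => hx (by simp [e])) hx
      · rintro rfl
        exact h.tail.notMem hu
    · obtain ⟨A', a1, a2, a3⟩ := ih h.tail hy fun c e hm => hn c e (List.mem_cons_of_mem _ hm)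
      have k : ∀ u ∈ y :: A', u ∈ y :: A ∧ u ≠ v := fun u hu => by
        rcases List.mem_cons.1 hu with rfl | hu
        · exact ⟨List.mem_cons_self, Ne.symm hy⟩
        · exact ⟨List.mem_cons_of_mem _ (a3 u hu).1, (a3 u hu).2⟩
      exact ⟨y :: A', a1.cons h.adj fun hm => h.notMem (k x hm).1, Nat.succ_le_succ a2, k⟩

theorem tail3 (h1 : 1 ≤ ℓ) {U Y : B} {c c' : Fin 3} (h : Gt H U c Y c') (S : List (Wv B))
    (hS : ∀ v ∈ S, v ≠ ph H ℓ Y c' (0, []) ∧ ((∃ X ∈ q, v = Sum.inl X) ∨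
      v = ph H ℓ U c (ℓ + 1, []) ∨ v = ph H ℓ Y c' (ℓ + 1, []))) :
    ∃ A, P (G0 H ℓ q) (ph H ℓ Y c' (0, []) :: A) ∧
      kk (Fintype.card B) q.card ℓ ≤ A.length + 2 + ℓ + S.length ∧
      ∀ v ∈ ph H ℓ Y c' (0, []) :: A, v ∉ S ∧ ¬ In H ℓ U c v ∧ ¬ In H ℓ Y c' v := by
  induction S with
  | nil =>
    obtain ⟨A, a1, a2, a3⟩ := tail2 (q := q) h1 h
    exact ⟨A, a1, a2, fun v hv => ⟨List.not_mem_nil, a3 v hv⟩⟩
  | cons v S ih =>
    obtain ⟨A, a1, a2, a3⟩ := ih fun u hu => hS u (List.mem_cons_of_mem _ hu)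
    obtain ⟨hne, hv⟩ := hS v List.mem_cons_self
    obtain ⟨X, b1, b2⟩ : ∃ X, Bl H ℓ q X v ∧
        ∀ d, v = ph H ℓ X d (0, []) → ph H ℓ X d (1, []) ∉ ph H ℓ Y c' (0, []) :: A := by
      rcases hv with ⟨X, hX, rfl⟩ | rfl | rfl
      · exact ⟨X, Or.inl ⟨rfl, hX⟩, fun d e => absurd e.symm ph_inl⟩
      · exact ⟨_, Or.inr ⟨c, ph_end⟩, Up2_end h1 fun u hu => (a3 u hu).2.1⟩
      · exact ⟨_, Or.inr ⟨c', ph_end⟩, Up2_end h1 fun u hu => (a3 u hu).2.2⟩
    obtain ⟨A', c1, c2, c3⟩ := skip a1 b1 hne b2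
    refine ⟨A', c1, by rw [List.length_cons]; omega, fun u hu => ?_⟩
    have k : u ∈ ph H ℓ Y c' (0, []) :: A ∧ u ≠ v := by
      rcases List.mem_cons.1 hu with rfl | hu
      · exact ⟨List.mem_cons_self, hne.symm⟩
      · exact ⟨List.mem_cons_of_mem _ (c3 u hu).1, (c3 u hu).2⟩
    exact ⟨fun hm => (List.mem_cons.1 hm).elim k.2 (a3 u k.1).1, (a3 u k.1).2⟩

end PS
end

-- merged part: Pool.Agent.Work.MP_3e1eec_co.O.Rod2
section
/-! Every new edge inside a rod gives a longer way out.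
Plan.  The second list of `Wn` is always the one of `rod_hl`.
`wn_dive`: `u` dives (`rod_dive`).  `wn_anc`: `u = (i, M ++ y₂ :: y₁ :: L)` climbs to `y₁ :: L`, steps to `(!y₂) :: y₁ :: L` and dives.  `wn_next`: `u` climbs to the spine and walks up to `ℓ`.  `wn_far`: `u` climbs to the spine, walks down to `a + 1` and dives; it also covers `u = (ℓ + 1, [])`.
`rod_in`: reflect so that the inequality needed holds (`ℓ + 1 ≤ 2 i` for equal positions, `ℓ + 1 ≤ i + a` for positions at distance at least two); `rf` keeps `Vi`, inequality and non adjacency (`rd_rf`, `rf_rf`). -/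

open SimpleGraph

namespace PS
variable {ℓ : ℕ} {u v : Rv}

theorem Rod2_mk (hv : Vi ℓ v) {A : List Rv} (hA : P (Rd ℓ) (u :: A)) (hi : ∀ t ∈ A, Vi ℓ t)
    (hd : ∀ t ∈ u :: A, v.1 ≤ t.1 ∧ (t.1 = v.1 → ¬ t.2 <:+ v.2))
    (hl : ℓ + 1 + (if u.1 = ℓ + 1 then 1 else 0) ≤ A.length + v.1 + v.2.length + 1) :
    Wn ℓ u v := by
  obtain ⟨B, h1, h2, h3, h4⟩ := rod_hl (Or.inl hv)
  refine ⟨A, B, hA, h1, fun t ht1 ht2 => ?_, hi, fun t ht => ?_, by omega⟩
  · obtain ⟨k1, k2⟩ := hd t ht1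
    rcases List.mem_cons.1 ht2 with rfl | ht2
    · exact k2 rfl List.suffix_rfl
    · rcases h4 t ht2 with ⟨a, b⟩ | ⟨-, b⟩
      · exact k2 a b
      · omega
  · rcases List.mem_cons.1 ht with rfl | ht
    · exact hv
    · exact h3 t ht

theorem Rod2_not (M R : List Bool) (y : Bool) : ¬ (!y) :: R <:+ M ++ y :: R := by
  intro h
  have h1 : y :: R <:+ M ++ y :: R := List.suffix_append _ _
  have h2 := (List.suffix_of_suffix_length_le h h1 (by simp)).eq_of_length (by simp)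
  simp at h2

theorem wn_dive {i : ℕ} {L L' : List Bool} (hu : Vi ℓ (i, L)) (hv : Vi ℓ (i, L'))
    (hi : ℓ + 1 ≤ 2 * i) (hl : L.length ≤ L'.length) (hs : ¬ L <:+ L') : Wn ℓ (i, L) (i, L') := by
  obtain ⟨a1, a2, a3⟩ := hu
  simp only at a1 a2 a3
  obtain ⟨A, h1, h2, h3⟩ := rod_dive a3
  refine Rod2_mk hv h1 (fun t ht => ?_) (fun t ht => ?_) ?_
  · obtain ⟨k1, -, -, k4⟩ := h3 t ht
    exact ⟨k1 ▸ a1, k1 ▸ a2, k1 ▸ k4⟩
  · rcases List.mem_cons.1 ht with rfl | ht
    · exact ⟨le_rfl, fun _ => hs⟩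
    · obtain ⟨k1, k2, -, -⟩ := h3 t ht
      exact ⟨k1.ge, fun _ h => hs (k2.trans h)⟩
  · rw [if_neg (by simp only; omega)]
    simp only [ht] at h2 ⊢
    omega

theorem wn_anc {i : ℕ} {M L : List Bool} {y₁ y₂ : Bool} (hu : Vi ℓ (i, M ++ y₂ :: y₁ :: L))
    (hi : ℓ + 1 ≤ 2 * i) : Wn ℓ (i, M ++ y₂ :: y₁ :: L) (i, L) := by
  obtain ⟨a1, a2, a3⟩ := hu
  simp only [List.length_append, List.length_cons] at a1 a2 a3
  obtain ⟨D, h1, h2, h3⟩ := rod_dive (ℓ := ℓ) (i := i) (L := (!y₂) :: y₁ :: L)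
    (by simp only [List.length_cons]; omega)
  have hT : ∀ t ∈ (i, (!y₂) :: y₁ :: L) :: D,
      t.1 = i ∧ (!y₂) :: y₁ :: L <:+ t.2 ∧ t.2.length ≤ ht ℓ i := fun t ht => by
    rcases List.mem_cons.1 ht with rfl | ht
    · exact ⟨rfl, List.suffix_rfl, by simp only [List.length_cons]; omega⟩
    · exact ⟨(h3 t ht).1, (h3 t ht).2.1, (h3 t ht).2.2.2⟩
  have h4 : P (Rd ℓ) ((i, y₁ :: L) :: (i, (!y₂) :: y₁ :: L) :: D) := by
    refine h1.cons (rd_tr _ (by simp only [List.length_cons]; omega)) fun h => ?_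
    have := (hT _ h).2.1.length_le
    simp only [List.length_cons] at this
    omega
  have e : M ++ y₂ :: y₁ :: L = (M ++ [y₂]) ++ y₁ :: L := by simp
  have hs : ∀ M', M' <:+ M ++ [y₂] → M' ++ y₁ :: L <:+ M ++ y₂ :: y₁ :: L := by
    rintro M' ⟨X, hX⟩
    exact ⟨X, by rw [e, ← hX, List.append_assoc]⟩
  obtain ⟨A, k1, k2, -, k4⟩ := rod_climb (M ++ [y₂]) (y₁ :: L)
    (by simp only [List.length_append, List.length_cons, List.length_nil]; omega) h4
    fun M' hM' h => Rod2_not M (y₁ :: L) y₂ ((hT _ h).2.1.trans (hs M' hM'))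
  rw [← e] at k1
  have hA : ∀ t ∈ A, t.1 = i ∧ L.length < t.2.length ∧ t.2.length ≤ ht ℓ i := fun t ht => by
    rcases k4 t ht with h | ⟨M', h, rfl⟩
    · obtain ⟨b1, b2, b3⟩ := hT t h
      have := b2.length_le
      simp only [List.length_cons] at this
      exact ⟨b1, by omega, b3⟩
    · have := h.length_le
      simp only [List.length_append, List.length_cons, List.length_nil] at this ⊢
      exact ⟨trivial, by omega, by omega⟩
  refine Rod2_mk ⟨a1, a2, by simp only; omega⟩ k1 (fun t ht => ?_) (fun t ht => ?_) ?_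
  · obtain ⟨b1, -, b3⟩ := hA t ht
    exact ⟨b1 ▸ a1, b1 ▸ a2, b1 ▸ b3⟩
  · rcases List.mem_cons.1 ht with rfl | ht
    · refine ⟨le_rfl, fun _ h => ?_⟩
      have := h.length_le
      simp only [List.length_append, List.length_cons] at this
      omega
    · obtain ⟨b1, b2, -⟩ := hA t ht
      exact ⟨b1.ge, fun _ h => absurd h.length_le (by simp only; omega)⟩
  · rw [if_neg (by simp only; omega)]
    simp only [ht, List.length_append, List.length_cons, List.length_nil] at h2 k2 ⊢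
    omega

theorem wn_next {j : ℕ} {L L' : List Bool} (hu : Vi ℓ (j + 1, L')) (hv : Vi ℓ (j, L))
    (hl : 1 ≤ L.length + L'.length) : Wn ℓ (j + 1, L') (j, L) := by
  obtain ⟨a1, a2, a3⟩ := hu
  simp only at a1 a2 a3
  obtain ⟨T, h1, h2, h3⟩ := rod_up a2
  obtain ⟨A, k1, k2, -, k4⟩ := rod_climb L' [] (by simpa using a3) h1
    fun M' _ h => absurd (h3 _ h).2.1 (lt_irrefl _)
  rw [List.append_nil] at k1
  have hA : ∀ t ∈ A, j + 1 ≤ t.1 ∧ Vi ℓ t := fun t ht => by
    rcases k4 t ht with h | ⟨M', h, rfl⟩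
    · obtain ⟨b1, b2, b3⟩ := h3 t h
      exact ⟨b2.le, by omega, b3, by rw [b1]; exact Nat.zero_le _⟩
    · have := h.length_le
      exact ⟨le_rfl, a1, a2, by simp only [List.append_nil]; omega⟩
  refine Rod2_mk hv k1 (fun t ht => (hA t ht).2) (fun t ht => ?_) ?_
  · have : j + 1 ≤ t.1 := by
      rcases List.mem_cons.1 ht with rfl | ht
      · exact le_rfl
      · exact (hA t ht).1
    exact ⟨by simp only; omega, fun h => by simp only at h; omega⟩
  · rw [if_neg (by simp only; omega)]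
    simp only
    omega

theorem wn_far {i j : ℕ} {L L' : List Bool} (hu : Vi ℓ (i, L') ∨ (i, L') = (ℓ + 1, []))
    (hv : Vi ℓ (j, L)) (hij : j + 2 ≤ i)
    (hl : ℓ + 1 + (if i = ℓ + 1 then 1 else 0) ≤ L.length + L'.length + i + ht ℓ (j + 1)) :
    Wn ℓ (i, L') (j, L) := by
  have hi : i ≤ ℓ + 1 := by
    rcases hu with h | h
    · exact h.le
    · exact (congrArg Prod.fst h).le
  obtain ⟨D, h1, h2, h3⟩ := rod_dive (ℓ := ℓ) (i := j + 1) (L := []) (Nat.zero_le _)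
  obtain ⟨d, rfl⟩ : ∃ d, i = j + 1 + d := ⟨i - (j + 1), by omega⟩
  obtain ⟨T, k1, k2, -, k4⟩ := rod_down d hi h1 fun t ht => (h3 t ht).1.le
  have hT : ∀ t ∈ T, j + 1 ≤ t.1 ∧ t.1 < j + 1 + d ∧ Vi ℓ t := fun t ht => by
    rcases k4 t ht with h | ⟨b1, b2, b3⟩
    · obtain ⟨b1, -, -, b4⟩ := h3 t h
      exact ⟨b1.ge, by omega, by omega, by omega, b1 ▸ b4⟩
    · exact ⟨b2, b3, by omega, by omega, by rw [b1]; exact Nat.zero_le _⟩
  have key : ∃ A, P (Rd ℓ) ((j + 1 + d, L') :: A) ∧ A.length = L'.length + T.length ∧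
      ∀ t ∈ A, j + 1 ≤ t.1 ∧ Vi ℓ t := by
    rcases hu with ⟨a1, a2, a3⟩ | h
    · simp only at a1 a2 a3
      obtain ⟨A, m1, m2, -, m4⟩ := rod_climb L' [] (by simpa using a3) k1
        fun M' _ h => absurd (hT _ h).2.1 (lt_irrefl _)
      rw [List.append_nil] at m1
      refine ⟨A, m1, m2, fun t ht => ?_⟩
      rcases m4 t ht with h | ⟨M', h, rfl⟩
      · exact ⟨(hT t h).1, (hT t h).2.2⟩
      · have := h.length_le
        exact ⟨by simp only; omega, a1, a2, by simp only [List.append_nil]; omega⟩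
    · obtain rfl : L' = [] := congrArg Prod.snd h
      exact ⟨T, k1, by simp, fun t ht => ⟨(hT t ht).1, (hT t ht).2.2⟩⟩
  obtain ⟨A, m1, m2, m3⟩ := key
  refine Rod2_mk hv m1 (fun t ht => (m3 t ht).2) (fun t ht => ?_) ?_
  · have : j + 1 ≤ t.1 := by
      rcases List.mem_cons.1 ht with rfl | ht
      · exact Nat.le_add_right _ _
      · exact (m3 t ht).1
    exact ⟨by simp only; omega, fun h => by simp only at h; omega⟩
  · simp only [List.length_nil] at h2 ⊢
    omega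

theorem Rod2_same1 {i : ℕ} {L M : List Bool} (hu : Vi ℓ (i, L)) (hv : Vi ℓ (i, M))
    (hne : L ≠ M) (h1 : ∀ x, M ≠ x :: L) (hi : ℓ + 1 ≤ 2 * i) (hl : L.length ≤ M.length) :
    Wn ℓ (i, L) (i, M) ∨ Wn ℓ (i, M) (i, L) := by
  by_cases hs : L <:+ M
  · obtain ⟨X, rfl⟩ := hs
    rcases List.eq_nil_or_concat X with rfl | ⟨X, y₁, rfl⟩
    · exact absurd rfl hne
    rcases List.eq_nil_or_concat X with rfl | ⟨X, y₂, rfl⟩
    · exact absurd (by simp) (h1 y₁)
    have e : (X.concat y₂).concat y₁ ++ L = X ++ y₂ :: y₁ :: L := by simp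
    rw [e] at hv ⊢
    exact Or.inr (wn_anc hv hi)
  · exact Or.inl (wn_dive hu hv hi hl hs)

theorem Rod2_same {i : ℕ} {L M : List Bool} (hu : Vi ℓ (i, L)) (hv : Vi ℓ (i, M))
    (hne : L ≠ M) (h1 : ∀ x, M ≠ x :: L) (h2 : ∀ x, L ≠ x :: M) (hi : ℓ + 1 ≤ 2 * i) :
    Wn ℓ (i, L) (i, M) ∨ Wn ℓ (i, M) (i, L) := by
  rcases le_total L.length M.length with h | h
  · exact Rod2_same1 hu hv hne h1 hi h
  · exact (Rod2_same1 hv hu hne.symm h2 hi h).symm

theorem Rod2_far {i j : ℕ} {L L' : List Bool} (hu : Vi ℓ (i, L')) (hv : Vi ℓ (j, L))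
    (hij : j + 2 ≤ i) (h : ℓ + 1 ≤ i + j) : Wn ℓ (i, L') (j, L) := by
  have a2 : i ≤ ℓ := hu.2.1
  refine wn_far (Or.inl hu) hv hij ?_
  rw [if_neg (by omega)]
  simp only [ht]
  omega

theorem Rod2_lt {i j : ℕ} {L L' : List Bool} (hu : Vi ℓ (i, L')) (hv : Vi ℓ (j, L))
    (hij : j < i) (hn : ¬ (Rd ℓ).Adj (j, L) (i, L')) :
    Wn ℓ (i, L') (j, L) ∨ Wn ℓ (rf ℓ (j, L)) (rf ℓ (i, L')) := by
  have a2 : i ≤ ℓ := hu.2.1
  rcases Nat.lt_or_ge (j + 1) i with h | h
  · rcases Nat.lt_or_ge ℓ (i + j) with k | k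
    · exact Or.inl (Rod2_far hu hv h k)
    · exact Or.inr (Rod2_far hv.rf hu.rf (by simp only; omega) (by simp only; omega))
  · obtain rfl : i = j + 1 := by omega
    refine Or.inl (wn_next hu hv ?_)
    by_contra k
    obtain rfl : L = [] := List.length_eq_zero_iff.1 (by omega)
    obtain rfl : L' = [] := List.length_eq_zero_iff.1 (by omega)
    exact hn (rd_sp (by omega))

theorem rod_in (hu : Vi ℓ u) (hv : Vi ℓ v) (hne : u ≠ v) (hn : ¬ (Rd ℓ).Adj u v) :
    Wn ℓ u v ∨ Wn ℓ v u ∨ Wn ℓ (rf ℓ u) (rf ℓ v) ∨ Wn ℓ (rf ℓ v) (rf ℓ u) := by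
  obtain ⟨i, L⟩ := u
  obtain ⟨j, M⟩ := v
  rcases lt_trichotomy i j with h | rfl | h
  · rcases Rod2_lt hv hu h hn with k | k
    · exact Or.inr (Or.inl k)
    · exact Or.inr (Or.inr (Or.inl k))
  · have h0 : L ≠ M := fun e => hne (by rw [e])
    have h1 : ∀ x, M ≠ x :: L := by
      rintro x rfl
      exact hn (rd_tr x hv.2.2)
    have h2 : ∀ x, L ≠ x :: M := by
      rintro x rfl
      exact hn (rd_tr x hu.2.2).symm
    rcases Nat.lt_or_ge ℓ (2 * i) with k | k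
    · rcases Rod2_same hu hv h0 h1 h2 k with m | m
      · exact Or.inl m
      · exact Or.inr (Or.inl m)
    · exact Or.inr (Or.inr (Rod2_same hu.rf hv.rf h0 h1 h2 (by simp only; omega)))
  · rcases Rod2_lt hu hv h (fun k => hn k.symm) with k | k
    · exact Or.inl k
    · exact Or.inr (Or.inr (Or.inr k))

theorem rod_pt (hv : Vi ℓ v) (h1 : v.1 ≠ ℓ) (h2 : v ≠ (ℓ - 1, [])) : Wn ℓ (ℓ + 1, []) v := by
  obtain ⟨j, L⟩ := v
  have a1 : 1 ≤ j := hv.1
  have a2 : j ≤ ℓ := hv.2.1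
  simp only at h1
  refine wn_far (Or.inr rfl) hv (by omega) ?_
  rw [if_pos rfl]
  have h3 : j = ℓ - 1 → 1 ≤ L.length := by
    rintro rfl
    exact List.length_pos_iff.2 fun e => h2 (by rw [e])
  simp only [ht, List.length_nil]
  omega

end PS
end

-- merged part: Pool.Agent.Work.MP_3e1eec_co.O.Up3
section
/-! Almost every new edge creates a long path.
Plan.  `hl_in`, `hl_pt`: `rod_hl` and `map_ph`; `hl_ex`: put `Sum.inl X` in front of the list of `hl_pt` (`ph_end`, `adj_bl`).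
`two`: `tail3` with `S ++ S'`; the first list is `b :: A`, the second one is `b' :: A'` glued (`P.glue`) to the tail.  `one`: the same with the lists of `Wn` and `S = []` or the far port.
`gt_ex`: `H.smp`.  `cr0`, cases.  Inner vertices of one rod: `rod_in`, `one`, `ph_rf`.  Inner vertices of different rods: by `gt_ex` (twice) and `ph_rf` write `u = ph X c p`, `v = ph Y c' r` with `Gt X c Y c'` and `Gt Y c' X c` (`Gt` does not change if its first block `U` is replaced by `m c U`); either `u` seen from `m c X` and `v` seen from `Y`, or `v` seen from `m c' Y` and `u` seen from `X`, have numbers with sum at least `ℓ + 1`.  Block vertex and inner vertex: a port and its own rod: `rod_pt` seen from the other end, the exceptions are the neighbour and `ph X c (2, [])`; otherwise `hl_pt` or `hl_ex` (choose a colour different from that of the rod).  Two block vertices: the same block is a clique, adjacent blocks are in a zone, otherwise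 both use `hl_pt` or `hl_ex`. -/

open SimpleGraph

namespace PS
variable {B : Type} [Fintype B]

/-- A way from `b` through the rod `(U, c)` to its port at `U`, with `n` inner vertices. -/
def Hl (H : Host B) (ℓ : ℕ) (q : Finset B) (U : B) (c : Fin 3) (b : Wv B) (S : List (Wv B))
    (n : ℕ) : Prop :=
  ∃ A, P (G0 H ℓ q) ((b :: A) ++ [ph H ℓ U c (0, [])]) ∧ n + S.length ≤ A.length + 1 ∧
    (∀ v ∈ b :: A, v ∈ S ∨ In H ℓ U c v) ∧
    ∀ v ∈ S, (v = Sum.inl (H.m c U) ∧ H.m c U ∈ q) ∨ v = ph H ℓ U c (ℓ + 1, [])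

variable {H : Host B} {ℓ : ℕ} {q : Finset B} {U Y X : B} {c c' : Fin 3} {p r : Rv}

theorem Up3_hl (U : B) (c : Fin 3) (hp : Vi ℓ p ∨ p = (ℓ + 1, [])) :
    ∃ A, P (G0 H ℓ q) ((ph H ℓ U c p :: A) ++ [ph H ℓ U c (0, [])]) ∧
      A.length + 1 = p.1 + p.2.length ∧ ∀ v ∈ A, In H ℓ U c v := by
  obtain ⟨A, a1, a2, a3, -⟩ := rod_hl hp
  refine ⟨A.map (ph H ℓ U c), ?_, by rw [List.length_map, a2], fun v hv => ?_⟩
  · have := map_ph (H := H) (q := q) U c a1 fun t ht => by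
      simp only [List.cons_append, List.mem_cons, List.mem_append, List.not_mem_nil,
        or_false] at ht
      rcases ht with rfl | ht | rfl
      · exact hp.elim Vi.le fun e => by rw [e]
      · exact (a3 t ht).le
      · exact Nat.zero_le _
    simpa using this
  · obtain ⟨t, ht, rfl⟩ := List.mem_map.1 hv
    exact ⟨t, a3 t ht, rfl⟩

theorem hl_in (U : B) (c : Fin 3) (hp : Vi ℓ p) :
    Hl H ℓ q U c (ph H ℓ U c p) [] (p.1 + p.2.length) := by
  obtain ⟨A, a1, a2, a3⟩ := Up3_hl (H := H) (q := q) U c (Or.inl hp)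
  refine ⟨A, a1, by simp [a2], fun v hv => Or.inr ?_, by simp⟩
  rcases List.mem_cons.1 hv with rfl | hv
  · exact ⟨p, hp, rfl⟩
  · exact a3 v hv

theorem hl_pt (U : B) (c : Fin 3) :
    Hl H ℓ q U c (ph H ℓ U c (ℓ + 1, [])) [ph H ℓ U c (ℓ + 1, [])] ℓ := by
  obtain ⟨A, a1, a2, a3⟩ := Up3_hl (H := H) (q := q) (ℓ := ℓ) U c (Or.inr rfl)
  refine ⟨A, a1, by simpa using a2.ge, fun v hv => ?_, by simp⟩
  rcases List.mem_cons.1 hv with rfl | hv
  · exact Or.inl List.mem_cons_self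
  · exact Or.inr (a3 v hv)

theorem hl_ex (U : B) (c : Fin 3) (h : H.m c U ∈ q) :
    Hl H ℓ q U c (Sum.inl (H.m c U)) [Sum.inl (H.m c U), ph H ℓ U c (ℓ + 1, [])] ℓ := by
  obtain ⟨A, a1, a2, a3⟩ := Up3_hl (H := H) (q := q) (ℓ := ℓ) U c (Or.inr rfl)
  have b : Bl H ℓ q (H.m c U) (Sum.inl (H.m c U)) := Or.inl ⟨rfl, h⟩
  refine ⟨ph H ℓ U c (ℓ + 1, []) :: A, ?_, ?_, fun v hv => ?_, by simp [h]⟩
  · refine P.cons a1 (adj_bl b (ph_end (H := H) ▸ bl_port _ _) ph_inl.symm) fun hm => ?_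
    simp only [List.mem_cons, List.mem_append, List.not_mem_nil, or_false,
      List.append_eq] at hm
    rcases hm with e | e | e
    · exact ph_inl e.symm
    · exact bl_in b (a3 _ e)
    · exact ph_inl e.symm
  · simp only [List.length_cons, List.length_nil] at a2 ⊢
    omega
  · rcases List.mem_cons.1 hv with rfl | hv
    · exact Or.inl List.mem_cons_self
    rcases List.mem_cons.1 hv with rfl | hv
    · exact Or.inl (by simp)
    · exact Or.inr (a3 v hv)

theorem Up3_bl {v : Wv B}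
    (h : (v = Sum.inl (H.m c U) ∧ H.m c U ∈ q) ∨ v = ph H ℓ U c (ℓ + 1, [])) :
    Bl H ℓ q (H.m c U) v := h.elim Or.inl fun e => Or.inr ⟨c, e.trans ph_end⟩

theorem Up3_cr {k : ℕ} {b b' t : Wv B} {A A' T : List (Wv B)} (h1 : P (G0 H ℓ q) (b :: A))
    (h2 : P (G0 H ℓ q) ((b' :: A') ++ [t])) (h3 : P (G0 H ℓ q) (t :: T))
    (d1 : (b :: A).Disjoint (b' :: A')) (d2 : (b :: A).Disjoint (t :: T))
    (d3 : (b' :: A').Disjoint (t :: T)) (hk : k ≤ A.length + A'.length + T.length + 3) :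
    Cr k (G0 H ℓ q) b b' := by
  refine ⟨A, A' ++ t :: T, h1, h2.glue h3 fun v a a' => d3 a (List.mem_cons_of_mem _ a'),
    fun v a a' => ?_, ?_⟩
  · rw [← List.cons_append, List.mem_append] at a'
    exact a'.elim (d1 a) (d2 a)
  · simp only [List.length_append, List.length_cons]
    omega

theorem two (h1 : 1 ≤ ℓ) {b b' : Wv B} {S S' : List (Wv B)} {n n' : ℕ}
    (h : Hl H ℓ q U c b S n) (h' : Hl H ℓ q Y c' b' S' n') (hg : Gt H U c Y c')
    (hd : ¬ (c = c' ∧ (Y = U ∨ Y = H.m c U))) (hS : S = [] ∨ S' = [] ∨ H.m c U ≠ H.m c' Y)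
    (hn : ℓ + 1 ≤ n + n') : Cr (kk (Fintype.card B) q.card ℓ) (G0 H ℓ q) b b' := by
  obtain ⟨A, a1, a2, a3, a4⟩ := h
  obtain ⟨A', b1, b2, b3, b4⟩ := h'
  obtain ⟨T, t1, t2, t3⟩ := tail3 (q := q) h1 hg (S ++ S') fun v hv => by
    rcases List.mem_append.1 hv with hv | hv
    · rcases a4 v hv with ⟨rfl, e⟩ | rfl
      · exact ⟨ph_inl.symm, Or.inl ⟨_, e, rfl⟩⟩
      · refine ⟨fun e => ?_, Or.inr (Or.inl rfl)⟩
        rw [ph_end] at e
        exact hd ⟨(ph_port e).1, Or.inr (ph_port e).2.symm⟩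
    · rcases b4 v hv with ⟨rfl, e⟩ | rfl
      · exact ⟨ph_inl.symm, Or.inl ⟨_, e, rfl⟩⟩
      · refine ⟨fun e => ?_, Or.inr (Or.inr rfl)⟩
        rw [ph_end] at e
        exact H.ne _ _ (ph_port e).2
  refine Up3_cr a1.left b1 t1 (fun v x y => ?_) (fun v x y => ?_) (fun v x y => ?_) ?_
  · rcases a3 v x with x | x <;> rcases b3 v y with y | y
    · rcases hS with rfl | rfl | e
      · cases x
      · cases y
      · exact e (bl_eq (Up3_bl (a4 v x)) (Up3_bl (b4 v y)))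
    · exact bl_in (Up3_bl (a4 v x)) y
    · exact bl_in (Up3_bl (b4 v y)) x
    · exact hd (in_eq x y)
  · exact (a3 v x).elim (fun e => (t3 v y).1 (List.mem_append_left _ e)) (t3 v y).2.1
  · exact (b3 v x).elim (fun e => (t3 v y).1 (List.mem_append_right _ e)) (t3 v y).2.2
  · rw [List.length_append] at t2
    omega

theorem one (h1 : 1 ≤ ℓ) (U : B) (c : Fin 3) (hp : Vi ℓ p ∨ p = (ℓ + 1, [])) (h : Wn ℓ p r) :
    Cr (kk (Fintype.card B) q.card ℓ) (G0 H ℓ q) (ph H ℓ U c p) (ph H ℓ U c r) := by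
  obtain ⟨A, A', a1, a2, a3, a4, a5, a6⟩ := h
  have lA : ∀ t ∈ p :: A, t.1 ≤ ℓ + 1 := fun t ht => by
    rcases List.mem_cons.1 ht with rfl | ht
    · exact hp.elim Vi.le fun e => by rw [e]
    · exact (a4 t ht).le
  obtain ⟨T, t1, t2, t3⟩ := tail3 (q := q) h1 (U := U) (Y := U) (c := c) (Or.inl rfl)
    (if p.1 = ℓ + 1 then [ph H ℓ U c (ℓ + 1, [])] else []) fun v hv => by
      split_ifs at hv
      · obtain rfl := List.mem_singleton.1 hv
        refine ⟨fun e => ?_, Or.inr (Or.inl rfl)⟩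
        rw [ph_end] at e
        exact H.ne _ _ (ph_port e).2
      · cases hv
  have m1 := map_ph (H := H) (q := q) U c a1 lA
  have m2 := map_ph (H := H) (q := q) U c a2 fun t ht => by
    rcases List.mem_append.1 ht with ht | ht
    · exact (a5 t ht).le
    · rw [List.mem_singleton.1 ht]
      exact Nat.zero_le _
  rw [List.map_append] at m2
  refine Up3_cr m1 m2 t1 (fun v x y => ?_) (fun v x y => ?_) (fun v x y => ?_) ?_
  · obtain ⟨t, ht, rfl⟩ := List.mem_map.1 (show v ∈ (p :: A).map (ph H ℓ U c) from x)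
    obtain ⟨t', ht', e⟩ := List.mem_map.1 (show _ ∈ (r :: A').map (ph H ℓ U c) from y)
    exact a3 ht (ph_inj1 (a5 t' ht').le (lA t ht) e ▸ ht')
  · obtain ⟨t, ht, rfl⟩ := List.mem_map.1 (show v ∈ (p :: A).map (ph H ℓ U c) from x)
    rcases List.mem_cons.1 ht with rfl | ht
    · rcases hp with hp | rfl
      · exact (t3 _ y).2.1 ⟨t, hp, rfl⟩
      · exact (t3 _ y).1 (by simp)
    · exact (t3 _ y).2.1 ⟨t, a4 t ht, rfl⟩
  · obtain ⟨t, ht, rfl⟩ := List.mem_map.1 (show v ∈ (r :: A').map (ph H ℓ U c) from x)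
    exact (t3 _ y).2.1 ⟨t, a5 t ht, rfl⟩
  · simp only [List.length_map]
    split_ifs at t2 a6 <;> simp only [List.length_cons, List.length_nil] at t2 <;> omega

theorem gt_ex (H : Host B) (U : B) (c : Fin 3) (Y : B) (c' : Fin 3) :
    Gt H U c Y c' ∨ Gt H U c (H.m c' Y) c' := by
  by_contra h
  simp only [Gt, H.inv, not_or, not_and_or, not_not] at h
  obtain ⟨⟨h1, h2⟩, -, h3⟩ := h
  rcases h2 with h2 | h2 <;> rcases h3 with rfl | h3
  · exact H.ne _ _ h2
  · exact h1 (H.smp _ _ Y (by rw [h2, h3, H.inv]))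
  · exact h1 (H.smp _ _ _ h2.symm)
  · exact H.ne _ _ (h2.trans h3.symm)

theorem Up3_gt (h : Gt H U c Y c') : Gt H (H.m c U) c Y c' :=
  h.imp_right fun a => ⟨a.2, by rw [H.inv]; exact a.1⟩

/-- An inner vertex seen from a good end. -/
theorem Up3_see {v : Wv B} (h : In H ℓ Y c' v) (U : B) (c : Fin 3) :
    ∃ Y', In H ℓ Y' c' v ∧ Gt H U c Y' c' :=
  (gt_ex H U c Y c').elim (fun a => ⟨Y, h, a⟩) fun a => ⟨_, h.rev, a⟩

theorem Up3_ii (h1 : 1 ≤ ℓ) {u v : Wv B} (hu : In H ℓ X c u) (hv : In H ℓ Y c' v) (hne : u ≠ v)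
    (hn : ¬ (G0 H ℓ q).Adj u v) : Cr (kk (Fintype.card B) q.card ℓ) (G0 H ℓ q) u v := by
  by_cases hs : In H ℓ X c v
  · obtain ⟨p, hp, rfl⟩ := hu
    obtain ⟨r, hr, rfl⟩ := hs
    rcases rod_in hp hr (fun e => hne (by rw [e])) fun a => hn (adj_ph a) with w | w | w | w
    · exact one h1 X c (Or.inl hp) w
    · exact (one h1 X c (Or.inl hr) w).symm
    · rw [← ph_rf hp.le, ← ph_rf hr.le]
      exact one h1 _ c (Or.inl hp.rf) w
    · rw [← ph_rf hp.le, ← ph_rf hr.le]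
      exact (one h1 _ c (Or.inl hr.rf) w).symm
  obtain ⟨Y', hv', g1⟩ := Up3_see hv X c
  obtain ⟨X', hu', g2⟩ := Up3_see hu Y' c'
  have g3 : Gt H (H.m c X') c Y' c' := by
    rcases (in_eq hu hu').2 with rfl | rfl
    · exact Up3_gt g1
    · rwa [H.inv]
  have hs' : ¬ In H ℓ X' c v := fun a => hs (by
    rcases (in_eq hu hu').2 with rfl | rfl
    · exact a
    · simpa only [H.inv] using a.rev)
  obtain ⟨p, hp, rfl⟩ := hu'
  obtain ⟨r, hr, e⟩ := id hv'
  by_cases hl : p.1 ≤ r.1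
  · rw [← ph_rf hp.le, e]
    refine two h1 (hl_in _ c hp.rf) (hl_in Y' c' hr) g3 ?_ (Or.inl rfl) ?_
    · rintro ⟨rfl, rfl | a⟩
      · exact hs' (by simpa only [H.inv] using hv'.rev)
      · rw [H.inv] at a
        exact hs' (a ▸ hv')
    · have := hp.le
      simp only [rf]
      omega
  · rw [e, ← ph_rf hr.le]
    refine (two h1 (hl_in _ c' hr.rf) (hl_in X' c hp) (Up3_gt g2) ?_ (Or.inl rfl) ?_).symm
    · rintro ⟨rfl, rfl | a⟩
      · exact hs' hv'.rev
      · rw [H.inv] at a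
        exact hs' (a ▸ hv')
    · have := hr.le
      simp only [rf]
      omega

/-- The way from a block vertex; any colour is possible for the additional vertex. -/
theorem Up3_blk {u : Wv B} (hu : Bl H ℓ q X u) (d : Fin 3) : ∃ c S,
    Hl H ℓ q (H.m c X) c u S ℓ ∧ (c ≠ d ∨ u = ph H ℓ X c (0, [])) := by
  rcases hu with ⟨rfl, a⟩ | ⟨c, rfl⟩
  · have := hl_ex (ℓ := ℓ) (H.m (d + 1) X) (d + 1) (by rwa [H.inv])
    rw [H.inv] at this
    exact ⟨d + 1, _, this, Or.inl ((by decide : ∀ e : Fin 3, e + 1 ≠ e) d)⟩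
  · have := hl_pt (H := H) (q := q) (ℓ := ℓ) (H.m c X) c
    rw [ph_end, H.inv] at this
    exact ⟨c, _, this, Or.inr rfl⟩

theorem Up3_bi (h3 : 3 ≤ ℓ) {u v : Wv B} (hu : Bl H ℓ q X u) (hv : In H ℓ Y c' v)
    (hn : ¬ (G0 H ℓ q).Adj u v) : Cr (kk (Fintype.card B) q.card ℓ) (G0 H ℓ q) u v ∨
      ∃ X c, Zn H ℓ q X c u ∧ Zn H ℓ q X c v := by
  obtain ⟨c, S, a, b⟩ := Up3_blk hu c'
  by_cases hs : In H ℓ (H.m c X) c v
  · obtain rfl := b.resolve_left fun e => e (in_eq hs hv).1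
    obtain ⟨r, hr, rfl⟩ := hs
    have e : ph H ℓ X c (0, []) = ph H ℓ (H.m c X) c (ℓ + 1, []) := by rw [ph_end, H.inv]
    by_cases r2 : r = (ℓ - 1, [])
    · refine Or.inr ⟨X, c, Or.inl hu, Or.inr (Or.inr ?_)⟩
      rw [← ph_rf (X := X) (p := (2, [])) (by simp only; omega), r2]
      simp [rf]
    rw [e] at hn ⊢
    refine Or.inl (one (by omega) _ c (Or.inr rfl) (rod_pt hr (fun r1 => hn ?_) r2))
    obtain ⟨i, L⟩ := r
    obtain rfl : i = ℓ := r1
    have := hr.2.2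
    obtain rfl : L = [] := List.length_eq_zero_iff.1 (by simp only [ht] at this; omega)
    exact adj_ph (rd_sp le_rfl).symm
  · obtain ⟨Y', hv', g⟩ := Up3_see hv (H.m c X) c
    obtain ⟨r, hr, e⟩ := id hv'
    rw [e]
    refine Or.inl (two (by omega) a (hl_in Y' c' hr) g ?_ (Or.inr (Or.inl rfl)) ?_)
    · rintro ⟨rfl, rfl | f⟩
      · exact hs hv'
      · rw [H.inv] at f
        exact hs (f ▸ hv'.rev)
    · have := hr.1
      omega

theorem cr0 (h3 : 3 ≤ ℓ) {u v : Wv B} (hu : Va H ℓ q u) (hv : Va H ℓ q v) (hne : u ≠ v)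
    (hn : ¬ (G0 H ℓ q).Adj u v) : Cr (kk (Fintype.card B) q.card ℓ) (G0 H ℓ q) u v ∨
      ∃ X c, Zn H ℓ q X c u ∧ Zn H ℓ q X c v := by
  rcases hu with ⟨X, hu⟩ | ⟨X, c, hu⟩ <;> rcases hv with ⟨Y, hv⟩ | ⟨Y, c', hv⟩
  · by_cases ha : ∃ d, Y = H.m d X
    · obtain ⟨d, rfl⟩ := ha
      exact Or.inr ⟨X, d, Or.inl hu, Or.inr (Or.inl hv)⟩
    have hXY : X ≠ Y := fun e => hn (adj_bl hu (e ▸ hv) hne)
    obtain ⟨c, S, a, -⟩ := Up3_blk hu 0
    obtain ⟨c', S', b, -⟩ := Up3_blk hv 0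
    refine Or.inl (two (by omega) a b (Or.inr ?_) ?_ (Or.inr (Or.inr ?_)) (by omega))
    · rw [H.inv, H.inv]
      exact ⟨fun e => ha ⟨c, e⟩, hXY.symm⟩
    · rintro ⟨rfl, e | e⟩
      · exact hXY (H.inj e).symm
      · rw [H.inv] at e
        exact ha ⟨c, by rw [← e, H.inv]⟩
    · rwa [H.inv, H.inv]
  · exact Up3_bi h3 hu hv hn
  · exact (Up3_bi h3 hv hu fun a => hn a.symm).imp Cr.symm fun ⟨X, c, a, b⟩ => ⟨X, c, b, a⟩
  · exact Or.inl (Up3_ii (by omega) hu hv hne hn)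

/-- A leaf outside the zones which starts a long path. -/
theorem leaf0 (h3 : 3 ≤ ℓ) : ∃ v A, Va H ℓ q v ∧ Leaf (G0 H ℓ q) v ∧ (∀ X c, ¬ Zn H ℓ q X c v) ∧
    P (G0 H ℓ q) (v :: A) ∧ kk (Fintype.card B) q.card ℓ ≤ A.length + 2 := by
  obtain ⟨X⟩ := Fintype.card_pos_iff.1 H.pos
  have h2 : ht ℓ 2 = 1 := by unfold ht; omega
  have hv : Vi ℓ (2, [false]) := ⟨by decide, by simp only; omega, h2.ge⟩
  have hi : In H ℓ X 0 (ph H ℓ X 0 (2, [false])) := ⟨_, hv, rfl⟩
  obtain ⟨A, a1, a2, a3⟩ := Up3_hl (H := H) (q := q) (H.m 0 X) 0 (Or.inl hv.rf)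
  obtain ⟨T, t1, t2, t3⟩ := tail2 (q := q) (ℓ := ℓ) (by omega) (U := H.m 0 X) (Y := H.m 0 X)
    (c := 0) (Or.inl rfl)
  rw [ph_rf hv.le] at a1
  refine ⟨_, A ++ ph H ℓ (H.m 0 X) 0 (0, []) :: T, Or.inr ⟨X, 0, hi⟩,
    ⟨ph H ℓ X 0 (2, []), (adj_ph (rd_tr false (by simp [h2]))).symm, fun u hu => ?_⟩, ?_,
    a1.glue t1 fun v x y => ?_, ?_⟩
  · obtain ⟨r, a, rfl⟩ := nb_in hv hu
    rcases rd_nb a with b | b | ⟨x, b, -⟩ | ⟨x, b, e⟩
    · simp at b
    · simp at b
    · simp [h2] at b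
    · rw [show r = (2, []) from Prod.ext e (List.cons.inj b).2.symm]
  · rintro Y d (b | b | b)
    · exact bl_in b hi
    · exact bl_in b hi
    · rcases (ph_inj hv.le (by simp only; omega) b).2 with e | e <;> simp [rf] at e
  · refine (t3 v (List.mem_cons_of_mem _ y)).1 ?_
    rcases List.mem_cons.1 x with rfl | x
    · exact hi.rev
    · exact a3 v x
  · simp only [rf, List.length_append, List.length_cons, List.length_nil] at a2 ⊢
    omega

end PS
end

-- merged part: Pool.Agent.Work.MP_3e1eec_co.O.Up4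
section
/-! Greedy saturation and counting.
Plan.  `greedy`: a maximal element of the finite set of graphs above `G₀` with `PF k`; for a non edge `x y` the graph `G ⊔ edge x y` is not `PF`, argue as in `sat_iff` (or use `sat_iff`, `Br_pf`); an edge `x y` of `G` with `Cr k G₀ x y` contradicts `PF.join`.
`lift`: induction on the list.  `sat_sub`: apply `greedy` to `G.induce S`; paths are moved with `lift` and `List.map Subtype.val`; the map `Sym2.map Subtype.val` is injective and sends the edges into the image of `S` under `v ↦ s(v, π v)` together with `E`.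
`ok0`: `S = {u | Va u}` lies in the union of the image of `Sum.inl` and of the image of `(filter (side = false)) ×ˢ univ ×ˢ F` (`rod_card`, `ph_rf`, `H.half`); `π (inr (X, c, i, x :: L)) = inr (X, c, i, L)`, `π (inr (X, c, i, [])) = inr (X, c, i - 1, [])`; `E` is the set of pairs inside a zone: each zone has at most nine vertices, there are `3 s` zones. -/

open SimpleGraph

namespace PS

theorem greedy {V : Type} [Finite V] {k : ℕ} {G₀ : SimpleGraph V} (h : PF k G₀) :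
    ∃ G, G₀ ≤ G ∧ SatL k G ∧ ∀ x y, G.Adj x y → G₀.Adj x y ∨ ¬ Cr k G₀ x y := by
  have hfin : ({G : SimpleGraph V | G₀ ≤ G ∧ PF k G}).Finite := Set.toFinite _
  obtain ⟨G, ⟨hG0, hG⟩, hmax⟩ := hfin.exists_maximal ⟨G₀, le_rfl, h⟩
  refine ⟨G, hG0, ⟨hG, fun x y hne hn => ?_⟩, fun x y ha => ?_⟩
  · have hnp : ¬ PF k (G ⊔ edge x y) := fun hp => hn (hmax (y := G ⊔ edge x y)
      ⟨hG0.trans le_sup_left, hp⟩ le_sup_left
      (Or.inr ((edge_adj _ _ _ _).2 ⟨Or.inl ⟨rfl, rfl⟩, hne⟩)))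
    unfold PF at hnp
    push Not at hnp
    obtain ⟨l, hl, hk⟩ := hnp
    obtain ⟨A, u, v, B, rfl, hn'⟩ := Br_split (R := G.Adj) (l := l) fun h' =>
      absurd (hG l ⟨hl.1, h'⟩) (not_lt.2 hk)
    rcases hl.mid with hab | hab
    · exact absurd hab hn'
    · rcases ((edge_adj _ _ _ _).1 hab).1 with ⟨rfl, rfl⟩ | ⟨rfl, rfl⟩
      · exact Br_cr hl hk
      · rw [edge_comm] at hl
        exact (Br_cr hl hk).symm
  · refine Or.inr ?_
    rintro ⟨A, B, h1, h2, hd, hk⟩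
    have := hG.join (h1.mono hG0) (h2.mono hG0) ha hd
    omega

theorem lift {W : Type} {G : SimpleGraph W} {S : Set W} (hS : ∀ u v, G.Adj u v → u ∈ S)
    (x : S) {A : List W} (h : P G (x.1 :: A)) :
    ∃ A' : List S, P (G.induce S) (x :: A') ∧ A'.map Subtype.val = A := by
  induction A generalizing x with
  | nil => exact ⟨[], P.single x, rfl⟩
  | cons y A ih =>
    obtain ⟨A', h1, h2⟩ := ih ⟨y, hS _ _ h.adj.symm⟩ h.tail
    refine ⟨⟨y, hS _ _ h.adj.symm⟩ :: A', h1.cons h.adj fun hm => h.notMem ?_,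
      by rw [List.map_cons, h2]⟩
    have := List.mem_map_of_mem (f := Subtype.val) hm
    rwa [List.map_cons, h2] at this

theorem Up4_cr {W : Type} {G : SimpleGraph W} {S : Set W} {k : ℕ}
    (hS : ∀ u v, G.Adj u v → u ∈ S) {x y : S} (h : Cr k G x.1 y.1) : Cr k (G.induce S) x y := by
  obtain ⟨A, B, h1, h2, hd, hk⟩ := h
  obtain ⟨A', a1, rfl⟩ := lift hS x h1
  obtain ⟨B', b1, rfl⟩ := lift hS y h2
  refine ⟨A', B', a1, b1, fun t ht ht' => hd (List.mem_map_of_mem (f := Subtype.val) ht)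
    (List.mem_map_of_mem (f := Subtype.val) ht'), ?_⟩
  simpa only [List.length_map] using hk

theorem sat_sub {W : Type} {G : SimpleGraph W} {S : Set W} {k : ℕ} (hf : S.Finite)
    (hS : ∀ u v, G.Adj u v → u ∈ S) (hP : PF k G) (π : W → W) {E : Set (Sym2 W)} (hE : E.Finite)
    (he : ∀ u v, G.Adj u v → v = π u ∨ u = π v ∨ s(u, v) ∈ E)
    (hc : ∀ u ∈ S, ∀ v ∈ S, u ≠ v → ¬ G.Adj u v → Cr k G u v ∨ s(u, v) ∈ E)
    {v : W} {A : List W} (hl : Leaf G v) (hv : ∀ u, s(v, u) ∉ E) (hA : P G (v :: A))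
    (hk : k ≤ A.length + 2) : ∃ e, Ok k S.ncard e ∧ e ≤ S.ncard + E.ncard := by
  have : Finite S := hf
  have hP0 : PF k (G.induce S) := fun l hl' => by
    have := hP (l.map Subtype.val) ⟨hl'.1.map Subtype.val_injective,
      (List.isChain_map _).2 (hl'.2.imp fun _ _ a => a)⟩
    simpa only [List.length_map] using this
  obtain ⟨K, hle, hK, hadj⟩ := greedy hP0
  have key : ∀ x y : S, K.Adj x y → G.Adj x.1 y.1 ∨ s(x.1, y.1) ∈ E := by
    intro x y a
    by_cases b : G.Adj x.1 y.1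
    · exact Or.inl b
    rcases hadj x y a with c | c
    · exact Or.inl c
    · exact Or.inr ((hc _ x.2 _ y.2 (fun e => a.ne (Subtype.ext e)) b).resolve_left
        fun d => c (Up4_cr hS d))
  obtain ⟨p, hp, hp'⟩ := hl
  obtain ⟨A', a1, rfl⟩ := lift hS ⟨v, hS _ _ hp⟩ hA
  have hlt := hP _ hA
  refine ⟨K.edgeSet.ncard, ⟨S, this, K, hK, rfl, rfl, ⟨v, hS _ _ hp⟩, A',
    ⟨⟨p, hS _ _ hp.symm⟩, hle hp, fun u a => Subtype.ext (hp' _ ((key _ _ a).resolve_right (hv _)))⟩,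
    a1.mono hle, ?_⟩, ?_⟩
  · simp only [List.length_cons, List.length_map] at hlt hk
    omega
  · have hsub : Sym2.map Subtype.val '' K.edgeSet ⊆ (fun u => s(u, π u)) '' S ∪ E := by
      rintro _ ⟨e, he', rfl⟩
      induction e using Sym2.ind with
      | h x y =>
        rw [Sym2.map_mk]
        rcases key x y he' with a | a
        · rcases he _ _ a with b | b | b
          · exact Or.inl ⟨x.1, x.2, by rw [b]⟩
          · exact Or.inl ⟨y.1, y.2, by rw [b]; exact Sym2.eq_swap⟩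
          · exact Or.inr b
        · exact Or.inr a
    rw [← Set.ncard_image_of_injective K.edgeSet (Sym2.map.injective Subtype.val_injective)]
    exact (Set.ncard_le_ncard hsub ((hf.image _).union hE)).trans
      ((Set.ncard_union_le _ _).trans (Nat.add_le_add_right (Set.ncard_image_le hf) _))

/-- The parent of a vertex of the rod. -/
def Up4_par : Rv → Rv
  | (i, []) => (i - 1, [])
  | (i, _ :: L) => (i, L)

theorem Up4_rd {ℓ : ℕ} {p r : Rv} (h : (Rd ℓ).Adj p r) : r = Up4_par p ∨ p = Up4_par r := by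
  obtain ⟨i, L⟩ := p
  rcases rd_nb h with ⟨rfl, -, rfl⟩ | ⟨rfl, -, rfl⟩ | ⟨x, -, rfl⟩ | ⟨x, rfl, rfl⟩
  · exact Or.inr rfl
  · exact Or.inl rfl
  · exact Or.inr rfl
  · exact Or.inl rfl

/-- The parent map on raw vertices. -/
def Up4_pi {B : Type} : Wv B → Wv B
  | Sum.inl X => Sum.inl X
  | Sum.inr t => Sum.inr (t.1, t.2.1, Up4_par t.2.2)

/-- An enumeration of a zone. -/
def Up4_z {B : Type} [Fintype B] (H : Host B) (ℓ : ℕ) (X : B) (c : Fin 3) :
    Option (Bool × Option (Fin 3)) → Wv B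
  | none => ph H ℓ X c (2, [])
  | some (false, none) => Sum.inl X
  | some (false, some d) => ph H ℓ X d (0, [])
  | some (true, none) => Sum.inl (H.m c X)
  | some (true, some d) => ph H ℓ (H.m c X) d (0, [])

theorem Up4_zn {B : Type} [Fintype B] {H : Host B} {ℓ : ℕ} {q : Finset B} {X : B} {c : Fin 3}
    {u : Wv B} (h : Zn H ℓ q X c u) : ∃ i, u = Up4_z H ℓ X c i := by
  rcases h with (h | ⟨d, h⟩) | (h | ⟨d, h⟩) | h
  · exact ⟨some (false, none), h.1⟩
  · exact ⟨some (false, some d), h⟩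
  · exact ⟨some (true, none), h.1⟩
  · exact ⟨some (true, some d), h⟩
  · exact ⟨none, h⟩

theorem Up4_ph {B : Type} [Fintype B] (H : Host B) {ℓ : ℕ} (X : B) (c : Fin 3) {p : Rv}
    (h1 : p.1 ≤ ℓ + 1) (h2 : p.2.length ≤ ht ℓ p.1) : ∃ Y r, H.side Y = false ∧ r.1 ≤ ℓ + 1 ∧
      r.2.length ≤ ht ℓ r.1 ∧ ph H ℓ X c p = Sum.inr (Y, c, r) := by
  unfold ph
  split_ifs with a
  · refine ⟨_, _, by rw [H.sd, a]; rfl, rf_le p, ?_, rfl⟩
    simp only [rf]
    rwa [ht_rf h1]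
  · exact ⟨X, p, by simpa using a, h1, h2, rfl⟩

theorem ok0 {B : Type} [Fintype B] (H : Host B) {ℓ h : ℕ} (q : Finset B) (h3 : 3 ≤ ℓ)
    (hh : ℓ ≤ 2 * h + 1) : ∃ n e, Ok (kk (Fintype.card B) q.card ℓ) n e ∧
      2 * n + 3 * Fintype.card B * (3 + 2 * h) ≤
        2 * Fintype.card B + 18 * Fintype.card B * 2 ^ h ∧
      e ≤ n + 243 * Fintype.card B := by
  classical
  obtain ⟨F, hF, hFc⟩ := rod_card hh
  let T : Finset (Wv B) := Finset.univ.image Sum.inl ∪
    ((Finset.univ.filter fun X => H.side X = false) ×ˢ (Finset.univ : Finset (Fin 3)) ×ˢ F).image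
      Sum.inr
  have hph : ∀ (X : B) (c : Fin 3) (p : Rv), p.1 ≤ ℓ + 1 → p.2.length ≤ ht ℓ p.1 →
      ph H ℓ X c p ∈ T := by
    intro X c p a b
    obtain ⟨Y, r, a1, a2, a3, e⟩ := Up4_ph H X c a b
    rw [e]
    refine Finset.mem_union_right _ (Finset.mem_image_of_mem _ ?_)
    simp only [Finset.mem_product, Finset.mem_filter, Finset.mem_univ, true_and]
    exact ⟨a1, hF r a2 a3⟩
  have hT : {u | Va H ℓ q u} ⊆ (T : Set (Wv B)) := by
    rintro u (⟨X, ⟨rfl, -⟩ | ⟨c, rfl⟩⟩ | ⟨X, c, p, hp, rfl⟩)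
    · exact Finset.mem_union_left _ (Finset.mem_image_of_mem _ (Finset.mem_univ _))
    · exact hph X c _ (Nat.zero_le _) (Nat.zero_le _)
    · exact hph X c p hp.le hp.2.2
  have hTc : T.card ≤ Fintype.card B +
      (Finset.univ.filter fun X => H.side X = false).card * (3 * F.card) := by
    refine (Finset.card_union_le _ _).trans (Nat.add_le_add Finset.card_image_le
      (Finset.card_image_le.trans ?_))
    rw [Finset.card_product, Finset.card_product, Finset.card_univ, Fintype.card_fin]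
  have hn : {u | Va H ℓ q u}.ncard ≤ T.card := by
    rw [← Set.ncard_coe_finset]
    exact Set.ncard_le_ncard hT T.finite_toSet
  let E : Set (Sym2 (Wv B)) := {e | ∃ X c u v, Zn H ℓ q X c u ∧ Zn H ℓ q X c v ∧ e = s(u, v)}
  let f : B × Fin 3 × Option (Bool × Option (Fin 3)) × Option (Bool × Option (Fin 3)) →
      Sym2 (Wv B) := fun t => s(Up4_z H ℓ t.1 t.2.1 t.2.2.1, Up4_z H ℓ t.1 t.2.1 t.2.2.2)
  have hE : E ⊆ ((Finset.univ.image f : Finset _) : Set _) := by
    rintro _ ⟨X, c, u, v, a, b, rfl⟩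
    obtain ⟨i, rfl⟩ := Up4_zn a
    obtain ⟨j, rfl⟩ := Up4_zn b
    exact Finset.mem_image.2 ⟨(X, c, i, j), Finset.mem_univ _, rfl⟩
  have hEc : E.ncard ≤ 243 * Fintype.card B := by
    refine (Set.ncard_le_ncard hE (Finset.finite_toSet _)).trans ?_
    rw [Set.ncard_coe_finset]
    refine Finset.card_image_le.trans ?_
    simp only [Finset.card_univ, Fintype.card_prod, Fintype.card_option, Fintype.card_fin,
      Fintype.card_bool]
    omega
  obtain ⟨v, A, -, hl, hz, hA, hk⟩ := leaf0 (H := H) (q := q) h3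
  obtain ⟨e, he, hle⟩ := sat_sub (S := {u | Va H ℓ q u}) (T.finite_toSet.subset hT)
    (fun _ _ a => adj_va a) (pf0 (by omega)) Up4_pi (E := E) ((Finset.finite_toSet _).subset hE)
    (by
      rintro u w ⟨-, ⟨X, c, p, r, a, rfl, rfl⟩ | ⟨X, a, b⟩⟩
      · unfold ph
        split_ifs
        · exact (Up4_rd (rd_rf a)).elim (fun b => Or.inl (by rw [b]; rfl))
            fun b => Or.inr (Or.inl (by rw [b]; rfl))
        · exact (Up4_rd a).elim (fun b => Or.inl (by rw [b]; rfl))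
            fun b => Or.inr (Or.inl (by rw [b]; rfl))
      · exact Or.inr (Or.inr ⟨X, 0, u, w, Or.inl a, Or.inl b, rfl⟩))
    (fun u hu w hw hne hn => (cr0 h3 hu hw hne hn).imp_right
      fun ⟨X, c, a, b⟩ => ⟨X, c, u, w, a, b, rfl⟩)
    hl (by
      rintro u ⟨X, c, a, b, ha, hb, e⟩
      rcases Sym2.eq_iff.1 e with ⟨rfl, -⟩ | ⟨rfl, -⟩
      · exact hz X c ha
      · exact hz X c hb) hA hk
  refine ⟨_, e, he, ?_, by omega⟩
  have h1 := H.half
  generalize (Finset.univ.filter fun X => H.side X = false).card = t at h1 hTc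
  rw [← h1] at hTc ⊢
  have h2 := Nat.mul_le_mul_left (6 * t) hFc
  clear * - B H ℓ q t h T F hn hTc h2; nlinarith

end PS
end

-- merged part: Pool.Agent.Work.MP_3e1eec_co.O.Up5
section
/-! The host graph and the choice of the parameters. -/

open SimpleGraph

namespace PS

/-- The three matchings. -/
def Up5_m (t : ℕ) (c : Fin 3) : ZMod t × Bool → ZMod t × Bool
  | (x, false) => (x + (c.val : ℕ), true)
  | (x, true) => (x - (c.val : ℕ), false)

theorem Up5_unit {t : ℕ} (ht : t % 2 = 1) {a d : Fin 3} (h : a ≠ d) :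
    IsUnit (((d.val : ℕ) : ZMod t) - (a.val : ℕ)) := by
  have h2 : IsUnit ((2 : ℕ) : ZMod t) := (ZMod.isUnit_iff_coprime 2 t).2
    ((Nat.coprime_two_left).2 (Nat.odd_iff.2 ht))
  have h1 : IsUnit (1 : ZMod t) := isUnit_one
  have e : ((2 : ℕ) : ZMod t) - (1 : ℕ) = 1 := by push_cast; ring
  have e' : ((1 : ℕ) : ZMod t) - (2 : ℕ) = -1 := by push_cast; ring
  fin_cases a <;> fin_cases d <;> simp only [ne_eq, not_true] at h
  · simp
  · simpa using h2
  · simp
  · exact e ▸ h1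
  · simpa using h2.neg
  · exact e' ▸ h1.neg

theorem host {t : ℕ} (ht : t % 2 = 1) (h3 : 3 ≤ t) :
    ∃ (B : Type) (_ : Fintype B), Nonempty (Host B) ∧ Fintype.card B = 2 * t := by
  have : NeZero t := ⟨by omega⟩
  have : Fact (1 < t) := ⟨by omega⟩
  have hc : Fintype.card (ZMod t × Bool) = 2 * t := by simp [mul_comm]
  have inv : ∀ c X, Up5_m t c (Up5_m t c X) = X := by
    rintro c ⟨x, _ | _⟩ <;> simp [Up5_m]
  have sd : ∀ c X, (Up5_m t c X).2 = !X.2 := by
    rintro c ⟨x, _ | _⟩ <;> simp [Up5_m]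
  refine ⟨ZMod t × Bool, inferInstance, ⟨⟨Up5_m t, Prod.snd, inv, sd, ?_, by omega, ?_, ?_⟩⟩, hc⟩
  · rintro c c' ⟨x, _ | _⟩ e <;> by_contra q <;> refine (Up5_unit ht q).ne_zero ?_ <;>
      simp only [Up5_m, Prod.mk.injEq, and_true] at e
    · linear_combination -e
    · linear_combination e
  · have : (Finset.univ.filter fun X : ZMod t × Bool => X.2 = false) =
        Finset.univ ×ˢ {false} := by
      ext ⟨x, _ | _⟩ <;> simp
    rw [this, hc]
    simp
  · rintro ⟨x, b⟩ d a had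
    obtain ⟨δ, hu, hd⟩ : ∃ δ : ZMod t, IsUnit δ ∧
        ∀ y, Up5_m t a (Up5_m t d (y, b)) = (y + δ, b) := by
      cases b
      · exact ⟨_, Up5_unit ht had, fun y => by simp only [Up5_m]; congr 1; ring⟩
      · exact ⟨_, (Up5_unit ht had).neg, fun y => by simp only [Up5_m]; congr 1; ring⟩
    refine ⟨fun j => if j % 2 = 0 then (x + (j / 2 : ℕ) * δ, b)
      else Up5_m t d (x + (j / 2 : ℕ) * δ, b), by simp, fun j => ?_, fun i j hi hj e => ?_, ?_⟩
    · by_cases q : j % 2 = 0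
      · simp only [if_pos q, if_neg (show ¬ (j + 1) % 2 = 0 by omega),
          show (j + 1) / 2 = j / 2 by omega]
      · simp only [if_neg q, if_pos (show (j + 1) % 2 = 0 by omega),
          show (j + 1) / 2 = j / 2 + 1 by omega, hd]
        congr 1
        push_cast
        ring
    · rw [hc] at hi hj
      have key : (x + (i / 2 : ℕ) * δ, b) = (x + (j / 2 : ℕ) * δ, b) → i / 2 = j / 2 := fun z => by
        have z1 := hu.mul_right_cancel (add_left_cancel (Prod.mk.inj z).1)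
        have z2 := congrArg ZMod.val z1
        rwa [ZMod.val_cast_of_lt (by omega), ZMod.val_cast_of_lt (by omega)] at z2
      by_cases p : i % 2 = 0 <;> by_cases q : j % 2 = 0 <;> simp only [p, q, if_true, if_false] at e
      · have := key e
        omega
      · have := congrArg Prod.snd e
        simp [sd] at this
      · have := congrArg Prod.snd e
        simp [sd] at this
      · have := key (by rw [← inv d (_, b), e, inv])
        omega
    · rw [hc]
      simp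

theorem upper {k n h : ℕ} (hk : 160 ≤ k) (h1 : 1 ≤ h) (hn : 2 ^ h * k ≤ n) :
    ∃ e s, Ok k n e ∧ e ≤ n + 243 * s ∧ (2 * h + 5) * s ≤ k + 6 * (2 * h + 5) := by
  classical
  have ex : ∃ u, k ≤ (2 * h + 5) * (4 * u + 6) + 2 * h + 2 := ⟨k, by nlinarith⟩
  obtain ⟨u, u1, u2⟩ : ∃ u, k ≤ (2 * h + 5) * (4 * u + 6) + 2 * h + 2 ∧
      (u = 0 ∨ (2 * h + 5) * (4 * u + 2) + 2 * h + 2 < k) := by
    refine ⟨Nat.find ex, Nat.find_spec ex, ?_⟩
    rcases Nat.eq_zero_or_pos (Nat.find ex) with z | z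
    · exact Or.inl z
    · have := Nat.find_min ex (show Nat.find ex - 1 < Nat.find ex by omega)
      rw [show 4 * (Nat.find ex - 1) + 6 = 4 * Nat.find ex + 2 by omega] at this
      exact Or.inr (by omega)
  obtain ⟨B, _, ⟨H⟩, hB⟩ := host (t := 2 * u + 3) (by omega) (by omega)
  have hs : Fintype.card B = 4 * u + 6 := by omega
  have m1 : 1 * u ≤ h * u := Nat.mul_le_mul_right u h1
  have m0 : u = 0 → h * u = 0 := fun z => by rw [z, Nat.mul_zero]
  have r1 : (2 * h + 5) * (4 * u + 2) = 8 * (h * u) + 4 * h + 20 * u + 10 := by ring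
  have r2 : (2 * h + 5) * (4 * u + 6) = 8 * (h * u) + 12 * h + 20 * u + 30 := by ring
  have k6 : 6 * (4 * u + 6) + 4 ≤ k := by omega
  have dm := Nat.div_add_mod (k - 1 - 3 * (4 * u + 6)) (4 * u + 6 + 1)
  have ml := Nat.mod_lt (k - 1 - 3 * (4 * u + 6)) (show 0 < 4 * u + 6 + 1 by omega)
  obtain ⟨q, -, hq⟩ := Finset.exists_subset_card_eq (s := (Finset.univ : Finset B))
    (n := (k - 1 - 3 * (4 * u + 6)) % (4 * u + 6 + 1)) (by rw [Finset.card_univ]; omega)
  obtain ⟨n₀, e, o, c1, c2⟩ := ok0 H (ℓ := (k - 1 - 3 * (4 * u + 6)) / (4 * u + 6 + 1)) (h := h) q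
    ((Nat.le_div_iff_mul_le (by omega)).2 (by omega))
    (Nat.le_of_lt_succ ((Nat.div_lt_iff_lt_mul (by omega)).2 (by
      rw [show (2 * h + 1).succ * (4 * u + 6 + 1) = 8 * (h * u) + 14 * h + 8 * u + 14 by
        simp only [Nat.succ_eq_add_one]; ring]
      omega)))
  rw [hs] at o c1 c2
  rw [show kk _ _ _ = k by unfold kk; omega] at o
  have le : n₀ ≤ n := by
    rcases Nat.lt_or_ge h 3 with z | z
    · obtain rfl | rfl : h = 1 ∨ h = 2 := by omega
      · omega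
      · omega
    · have m3 : 3 * u ≤ h * u := Nat.mul_le_mul_right u z
      have a : 2 ^ h * (9 * (4 * u + 6)) ≤ 2 ^ h * k := Nat.mul_le_mul_left _ (by omega)
      have a1 : 18 * (4 * u + 6) * 2 ^ h = 2 * (2 ^ h * (9 * (4 * u + 6))) := by ring
      have a2 : 3 * (4 * u + 6) * 3 ≤ 3 * (4 * u + 6) * (3 + 2 * h) :=
        Nat.mul_le_mul_left _ (by omega)
      omega
  exact ⟨e + (n - n₀), 4 * u + 6, Con3_ok (by omega) o le (by omega), by omega, by omega⟩

end PS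
end

-- merged part: Pool.Agent.Work.MP_3e1eec_co.O.Lo1
section
/-! The core of a component.
Plan.  Among the sets `K` with `Q ⊆ K ⊆ Sf G v₀` and `ex G K = ex G (Sf G v₀)` take one of least size.  `EF`: `ex_ear`, `ex_le_Cm`.  Degrees: `ex_insert` for `K.erase u`.  `Ac`: if `y ∉ K` has a neighbour `z` and a path `y :: (A ++ [z])` with `A ≠ []`, delete the edge `y z` (`G' = G.deleteEdges {s(y, z)}` or `G \ edge y z`): reachability does not change, `ex G' K = ex G K`, `ex G' S + 2 = ex G S` (`B2_card`), against `ex_le_Cm` for `G'`.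
`ex_comp`: a component with negative excess is a tree; as in `main1`, if it has `Trip` it has at least `a k` vertices (`Cnt_long`, `Cnt_size`), otherwise `lp ≤ 2` (`small2`); two such components contradict `cr_iff_lp`.  Then `Cnt_sum` (or `Cnt_two`, `Cnt_bound`). -/

open SimpleGraph

namespace PS
variable {V : Type} {G : SimpleGraph V} [Finite V] {k : ℕ}

/-- `y` lies on no cycle. -/
def Ac (G : SimpleGraph V) (y : V) : Prop :=
  ∀ z A, G.Adj y z → P G (y :: (A ++ [z])) → A = []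

theorem Lo1_ac {v₀ : V} {K : Finset V} (hne : K.Nonempty) (hK : K ⊆ Sf G v₀)
    (he : ex G (Sf G v₀) ≤ ex G K) {y : V} (hy : G.Reachable v₀ y) (hyK : y ∉ K) : Ac G y := by
  intro z A ha hP
  by_contra hA
  obtain ⟨b, B, rfl⟩ := List.exists_cons_of_ne_nil hA
  have adj : ∀ {u v}, G.Adj u v → (u ≠ y ∨ v ≠ z) → (u ≠ z ∨ v ≠ y) →
      (G.deleteEdges {s(y, z)}).Adj u v := fun h h1 h2 => deleteEdges_adj.2 ⟨h, fun e => by
    rcases Sym2.eq_iff.1 (Set.mem_singleton_iff.1 e) with ⟨e1, e2⟩ | ⟨e1, e2⟩ <;> tauto⟩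
  have h1 : P (G.deleteEdges {s(y, z)}) (b :: (B ++ [z])) :=
    ⟨hP.tail.1, hP.tail.2.imp_of_mem_imp fun u v hu hv h =>
      adj h (Or.inl fun e => hP.notMem (e ▸ hu)) (Or.inr fun e => hP.notMem (e ▸ hv))⟩
  have h2 : (G.deleteEdges {s(y, z)}).Reachable y z :=
    (adj hP.adj (Or.inr fun e => hP.tail.notMem (by simp [e])) (Or.inl ha.ne)).reachable.trans
      (h1.reach z (by simp))
  have h3 : ∀ u v, G.Reachable u v → (G.deleteEdges {s(y, z)}).Reachable u v := by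
    rintro u v ⟨p⟩
    induction p with
    | nil => rfl
    | @cons u w _ h _ ih =>
      refine Reachable.trans ?_ ih
      by_cases q1 : u = y ∧ w = z
      · rw [q1.1, q1.2]
        exact h2
      by_cases q2 : u = z ∧ w = y
      · rw [q2.1, q2.2]
        exact h2.symm
      exact (adj h (not_and_or.1 q1) (not_and_or.1 q2)).reachable
  have h4 : ex (G.deleteEdges {s(y, z)}) K ≤ ex (G.deleteEdges {s(y, z)}) (Sf G v₀) :=
    ex_le_Cm (v₀ := v₀) (fun v => ⟨fun h => h3 _ _ (mem_Sf.1 h),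
      fun h => mem_Sf.2 (h.mono (deleteEdges_le _))⟩) hne hK
  have h5 : ex G K ≤ ex (G.deleteEdges {s(y, z)}) K := Finset.sum_le_sum fun v hv =>
    sub_le_sub_right (Nat.cast_le.2 (Set.ncard_le_ncard (fun u hu => And.intro hu.1 (adj hu.2
      (Or.inl fun e => hyK (e ▸ hv)) (Or.inr fun e => hyK (e ▸ hu.1)))) (Set.toFinite _))) _
  have sub : ∀ v, {u | u ∈ (Sf G v₀ : Set V) ∧ (G.deleteEdges {s(y, z)}).Adj v u} ⊆
      {u | u ∈ (Sf G v₀ : Set V) ∧ G.Adj v u} := fun v u hu => ⟨hu.1, deleteEdges_le _ hu.2⟩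
  have h6 : ex (G.deleteEdges {s(y, z)}) (Sf G v₀) < ex G (Sf G v₀) :=
    Finset.sum_lt_sum (fun v _ => sub_le_sub_right (Nat.cast_le.2 (Set.ncard_le_ncard (sub v)
      (Set.toFinite _))) _) ⟨y, mem_Sf.2 hy, sub_lt_sub_right (Nat.cast_lt.2 (Set.ncard_lt_ncard
        ⟨sub y, fun h => (deleteEdges_adj.1 (h ⟨mem_Sf.2 (hy.trans ha.reachable), ha⟩).2).2 rfl⟩
        (Set.toFinite _))) _⟩
  omega

theorem core {v₀ : V} {Q : List V} (hr : ∀ u ∈ Q, G.Reachable v₀ u) (hne : Q ≠ []) :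
    ∃ K : Finset V, (∀ u ∈ Q, u ∈ K) ∧ (∀ u ∈ K, G.Reachable v₀ u) ∧ EF G K ∧
      (∀ y, G.Reachable v₀ y → y ∉ K → Ac G y) ∧ (∀ u ∈ K, u ∉ Q → 2 ≤ dg G K u) ∧
      ex G K ≤ ex G (Sf G v₀) := by
  classical
  obtain ⟨K, hK, hm⟩ := ((Sf G v₀).powerset.filter fun K => (∀ u ∈ Q, u ∈ K) ∧
      ex G (Sf G v₀) ≤ ex G K).exists_min_image Finset.card ⟨_, Finset.mem_filter.2
        ⟨Finset.mem_powerset_self _, fun u hu => mem_Sf.2 (hr u hu), le_rfl⟩⟩
  obtain ⟨k1, k2, k3⟩ := Finset.mem_filter.1 hK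
  rw [Finset.mem_powerset] at k1
  obtain ⟨q, hq⟩ := List.exists_mem_of_ne_nil Q hne
  have n0 : K.Nonempty := ⟨q, k2 q hq⟩
  refine ⟨K, k2, fun u hu => mem_Sf.1 (k1 hu), fun x hx y hy L hL ho hP => ?_,
    fun y => Lo1_ac n0 k1 k3, fun u hu hQ => ?_, ex_le_Cm (fun _ => mem_Sf) n0 k1⟩
  · have h1 := ex_ear hx hy hL ho hP
    have h2 := ex_le_Cm (fun _ => mem_Sf) (n0.mono Finset.subset_union_left)
      (Finset.union_subset k1 fun u hu => mem_Sf.2 ((mem_Sf.1 (k1 hx)).trans (hP.reach u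
        (List.mem_cons_of_mem _ (List.mem_append_left _ (List.mem_toFinset.1 hu))))))
    omega
  · by_contra hc
    have h1 := ex_insert (G := G) (K.notMem_erase u)
    have h2 := dg_mono (G := G) (Finset.coe_subset.2 (K.erase_subset u)) u
    rw [Finset.insert_erase hu] at h1
    have h3 := hm (K.erase u) (Finset.mem_filter.2 ⟨Finset.mem_powerset.2
      ((K.erase_subset u).trans k1), fun v hv => Finset.mem_erase.2
        ⟨fun e => hQ (e ▸ hv), k2 v hv⟩, by omega⟩)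
    exact h3.not_gt (Finset.card_erase_lt_of_mem hu)

theorem ex_comp (hk : 9 ≤ k) (hS : SatL k G) (hn : Nat.card V < a k) (v : V) :
    ex G (Sf G v) ≤ 2 * (G.edgeSet.ncard : ℤ) - 2 * Nat.card V + 2 := by
  classical
  have hD := hS.d2
  have sm : ∀ u, ex G (Sf G u) < 0 → lp G ∅ u ≤ 2 := fun u hu => by
    have hC := Cnt_cac hD (v := u) (by omega)
    rw [← lp_res (Reachable.refl u)]
    refine small2 (nt_of_few hC ((few_res fun _ => mem_Sf).mono (by omega))) (fun ht => ?_) u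
    obtain ⟨Q, hQ, hl⟩ := Cnt_long hk hD (by omega) ht
    have h5 := (Cnt_size hk hD hC hQ hl).1 hu
    have h6 : (Sf G u).card ≤ Nat.card V := by
      rw [Sf_card, ← Set.ncard_univ]
      exact Set.ncard_le_ncard (Set.subset_univ _) (Set.toFinite _)
    omega
  obtain ⟨R, hR, hu, h1, -⟩ := Cnt_sum G
  obtain ⟨r, hr, hrv⟩ := hR v
  rw [← Finset.add_sum_erase _ _ hr, ← Finset.sum_filter_add_sum_filter_not _
    fun u => ex G (Sf G u) < 0] at h1
  have h2 : 0 ≤ ∑ u ∈ (R.erase r).filter fun u => ¬ex G (Sf G u) < 0, ex G (Sf G u) :=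
    Finset.sum_nonneg fun u hu => not_lt.1 (Finset.mem_filter.1 hu).2
  have h3 : ((R.erase r).filter fun u => ex G (Sf G u) < 0).card ≤ 1 :=
    Finset.card_le_one.2 fun x hx y hy => by
      obtain ⟨x1, x2⟩ := Finset.mem_filter.1 hx
      obtain ⟨y1, y2⟩ := Finset.mem_filter.1 hy
      refine hu x (Finset.mem_of_mem_erase x1) y (Finset.mem_of_mem_erase y1) (by_contra fun h => ?_)
      have := (cr_iff_lp h).1 (hS.2 x y (fun e => h (e ▸ Reachable.refl x)) fun ha => h ha.reachable)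
      have := sm x x2
      have := sm y y2
      omega
  have h4 := Finset.card_nsmul_le_sum ((R.erase r).filter fun u => ex G (Sf G u) < 0)
    (fun u => ex G (Sf G u)) (-2) fun u _ => Sf_ge u
  rw [nsmul_eq_mul] at h4
  rw [← Sf_eq hrv]
  omega

theorem half_path (hS : SatL k G) (hn : k ≤ Nat.card V) : ∃ Q, P G Q ∧ k ≤ 2 * Q.length := by
  have := Fintype.ofFinite V
  by_cases h : ∃ x y, x ≠ y ∧ ¬G.Adj x y
  · obtain ⟨x, y, h1, h2⟩ := h
    obtain ⟨A, B, a1, a2, -, a3⟩ := hS.2 x y h1 h2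
    rcases le_total A.length B.length with q | q
    · exact ⟨_, a2, by rw [List.length_cons]; omega⟩
    · exact ⟨_, a1, by rw [List.length_cons]; omega⟩
  · refine ⟨Finset.univ.toList, ⟨Finset.nodup_toList _, List.Pairwise.isChain
      ((Finset.nodup_toList _).imp fun hne => by_contra fun hn => h ⟨_, _, hne, hn⟩)⟩, ?_⟩
    rw [Finset.length_toList, Finset.card_univ, ← Nat.card_eq_fintype_card]
    omega

end PS
end

-- merged part: Pool.Agent.Work.MP_3e1eec_co.O.Lo2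
section
/-! Hanging trees are binary.
Plan.  `Ac.sep`, `Ac.sep'`: `Rg_path` gives a path from `x` to `y` avoiding `w`; close it through `w`.
`two_loc`: `x`, `y` are not adjacent; take `A`, `B` from `Cr`; `w` lies on one of the lists (`PF.join0` or `P.join` with `w` in between); if `w ∈ A` then `A = w :: Z` (`Ac`), `Z = z :: _` is not empty (swap `x` and `w`), and a longest path from `x` avoiding `w` followed by `w`, `y :: B` gives `lp {w} x ≤ Z.length ≤ lp {w} z`.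
`brA`: induction on `m` as `br0` in `Sz1.lean`: `t` the second vertex of a longest path from `x` avoiding `w`, `z` from `two_loc` at `x` for `w`, `t`; the regions of `t` and `z` are disjoint and lie in the region of `x` minus `x` (`Rg_avoid`, `Rg_adj`). -/

open SimpleGraph

namespace PS
variable {V : Type} {G : SimpleGraph V} [Finite V] {k : ℕ}

omit [Finite V] in
theorem Ac.sep {w x y : V} (h : Ac G w) (hx : G.Adj w x) (hy : G.Adj w y) (hne : x ≠ y) :
    y ∉ Rg G {w} x := by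
  intro hr
  obtain ⟨A, h1, h2⟩ := Rg_path (S := {w}) hx.ne' hr hne
  exact List.cons_ne_nil _ _ (h y (x :: A) hy (h1.cons hx fun hw => h2 w hw rfl))

omit [Finite V] in
theorem Ac.sep' {w x y : V} (h : Ac G x) (hx : G.Adj w x) (hy : G.Adj w y) (hne : x ≠ y) :
    y ∉ Rg G {w} x := by
  intro hr
  obtain ⟨A, h1, h2⟩ := Rg_path (S := {w}) hx.ne' hr hne
  have h3 := P.append (A := x :: A) h1 (P.single w) hy.symm fun v hv hv' =>
    h2 v hv (List.mem_singleton.1 hv')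
  simpa using h w (A ++ [y]) hx.symm (by simpa using h3)

omit [Finite V] in
theorem Lo2_sepR {w x y : V} (h : Ac G w) (hx : G.Adj w x) (hy : G.Adj w y) (hne : x ≠ y) :
    Disjoint (Rg G {w} x) (Rg G {w} y) :=
  Set.disjoint_left.2 fun _ h1 h2 => h.sep hx hy hne (Rg_trans h1 (Rg_symm h2))

theorem Lo2_half (hk : PF k G) {w x y : V} (h : Ac G w) (hx : G.Adj w x) (hy : G.Adj w y)
    (hne : x ≠ y) {A B : List V} (hA : P G (x :: A)) (hB : P G (y :: B))
    (hd : (x :: A).Disjoint (y :: B)) (hl : k ≤ A.length + B.length + 2) (hw : w ∈ A) :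
    ∃ z, G.Adj w z ∧ z ≠ x ∧ z ≠ y ∧ lp G {w} x ≤ lp G {w} z := by
  have wB : w ∉ y :: B := hd (List.mem_cons_of_mem _ hw)
  obtain ⟨A₁, A₂, rfl⟩ := List.append_of_mem hw
  have h1 : P G (x :: (A₁ ++ [w])) := hA.pre ⟨A₂, by simp⟩
  obtain rfl : A₁ = [] := List.reverse_eq_nil_iff.1 (h x _ hx (by simpa using h1.reverse))
  obtain ⟨X, x1, x2, x3⟩ := lp_ex G (S := {w}) (x := x) hx.ne'
  have := hk.join x1 (hB.cons hy wB) hx.symm fun v hv hv' => by
    rcases List.mem_cons.1 hv' with rfl | hv'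
    · exact x2 _ hv rfl
    · exact Set.disjoint_left.1 (Lo2_sepR h hx hy hne) (x1.mem_Rg x2 v hv)
        (hB.mem_Rg (fun r hr (e : r = w) => wB (e ▸ hr)) v hv')
  simp only [List.nil_append, List.length_cons] at this hl
  cases A₂ with
  | nil =>
    rw [List.length_nil] at hl
    omega
  | cons z Z =>
    have h3 : P G (w :: z :: Z) := hA.tail
    have a := lp_ge (S := {w}) h3.tail fun v hv (e : v = w) => h3.notMem (e ▸ hv)
    rw [List.length_cons] at hl
    exact ⟨z, h3.adj, fun e => hA.notMem (by simp [e]), fun e => hd (a := z) (by simp) (by simp [e]),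
      by omega⟩

theorem two_loc (hD : D2 k G) {w x y : V} (h : Ac G w) (hx : G.Adj w x) (hy : G.Adj w y)
    (hne : x ≠ y) : ∃ z, G.Adj w z ∧ z ≠ x ∧ z ≠ y ∧
      min (lp G {w} x) (lp G {w} y) ≤ lp G {w} z := by
  obtain ⟨A, B, hA, hB, hd, hl⟩ := hD.2 w x y hx hy hne fun a =>
    h.sep hx hy hne (Rg_adj hx.ne' (Rg_self _ _) a hy.ne')
  by_cases wA : w ∈ A
  · obtain ⟨z, a, b, c, d⟩ := Lo2_half hD.1 h hx hy hne hA hB hd hl wA
    exact ⟨z, a, b, c, (min_le_left _ _).trans d⟩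
  by_cases wB : w ∈ B
  · obtain ⟨z, a, b, c, d⟩ := Lo2_half hD.1 h hy hx hne.symm hB hA hd.symm (by omega) wB
    exact ⟨z, a, c, b, (min_le_right _ _).trans d⟩
  have := hD.1.join hA (hB.cons hy fun q => (List.mem_cons.1 q).elim hy.ne wB) hx.symm
    fun v hv hv' => by
      rcases List.mem_cons.1 hv' with rfl | hv'
      · exact (List.mem_cons.1 hv).elim hx.ne wA
      · exact hd hv hv'
  simp only [List.length_cons] at this
  omega

theorem Lo2_child {w x t : V} (h : Ac G x) (hx : G.Adj w x) (ht : G.Adj x t) (hne : t ≠ w) :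
    lp G {x} t + 1 ≤ lp G {w} x ∧ Rg G {x} t ⊆ Rg G {w} x \ {x} := by
  have hs : ∀ v ∈ Rg G {x} t, v ∉ ({w} : Set V) := fun v hv e =>
    h.sep ht hx.symm hne (Set.mem_singleton_iff.1 e ▸ hv)
  have tx : t ∉ ({x} : Set V) := ht.ne'
  constructor
  · obtain ⟨T, t1, t2, t3⟩ := lp_ex G tx
    have := lp_ge (S := {w}) (t1.cons ht fun q => t2 x q rfl) fun v hv => by
      rcases List.mem_cons.1 hv with rfl | hv
      · exact hx.ne'
      · exact hs v (t1.mem_Rg t2 v hv)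
    simp only [List.length_cons] at this
    omega
  · exact fun v hv => ⟨Rg_trans (Rg_adj hx.ne' (Rg_self _ _) ht hne) (Rg_avoid tx hs hv),
      Rg_notMem tx hv⟩

theorem brA (hD : D2 k G) (m : ℕ) {w x : V} (hx : G.Adj w x) (hA : ∀ t ∈ Rg G {w} x, Ac G t)
    (h1 : m ≤ lp G {w} x) (h2 : m ≤ lp G {x} w + 1) : 2 ^ m ≤ (Rg G {w} x).ncard + 1 := by
  induction m generalizing w x with
  | zero => simp
  | succ n ih =>
    have hp : 0 < (Rg G {w} x).ncard := (Set.ncard_pos (Set.toFinite _)).2 ⟨x, Rg_self _ _⟩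
    rcases Nat.eq_zero_or_pos n with rfl | h0
    · simp only [zero_add, pow_one]
      omega
    have nx := hA x (Rg_self _ _)
    obtain ⟨A, a1, a2, a3⟩ := lp_ex G (S := {w}) (x := x) hx.ne'
    cases A with
    | nil => simp only [List.length_nil] at a3; omega
    | cons c A =>
      have xc : G.Adj x c := a1.adj
      have cw : c ≠ w := a2 c (by simp)
      have l2 := lp_ge (S := {x}) a1.tail fun v hv (e : v = x) => a1.notMem (e ▸ hv)
      simp only [List.length_cons] at a3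
      obtain ⟨d, xd, dw, dc, l3⟩ := two_loc hD nx hx.symm xc cw.symm
      have s1 := (Lo2_child nx hx xc cw).2
      have s2 := (Lo2_child nx hx xd dw).2
      have u1 := (Lo2_child nx xc.symm xd dc).1
      have u2 := (Lo2_child nx xd.symm xc dc.symm).1
      have i1 := ih xc (fun t q => hA t (s1 q).1) (by omega) (by omega)
      have i2 := ih xd (fun t q => hA t (s2 q).1) (by omega) (by omega)
      have := Sz1_two (Lo2_sepR nx xc xd dc.symm) s1 s2 (Rg_self _ _)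
      rw [pow_succ]
      omega

end PS
end

-- merged part: Pool.Agent.Work.MP_3e1eec_co.O.Lo3
section
/-! The lower bound.
Plan.  Let `w i` be the `i`-th vertex of `Q`, `r = Q.length`.  An index `i < r` is bad if `i = 0`, `i = r - 1` or `3 ≤ dg G K (w i)`; at most `j + 4` indices are bad, since all vertices of `K` except the two ends of `Q` have `2 ≤ dg` and the ends have `1 ≤ dg` (if `r ≥ 2`).  A good `i` has the neighbours `w (i - 1)`, `w (i + 1)` only in `K` (`dg_two`).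
Claim, induction on `μ`: if all `i'` with `i ≤ i' + μ`, `i' ≤ i + μ` are good then `μ + 1 ≤ gK G K (w i)` (`TL`, `TT.lt`; `w (i - 1)` and `w (i + 1)` are not adjacent because `i - 1` is good).
At least `r - (2 m + 1) (j + 4)` indices are at distance more than `m` from all bad ones.  For such `i` (and `m ≥ 1`) take `x` from `B3_ex`; `Rg G {w i} x` misses `K` (`EF`, `B3_first`), `brA` applies (`lp {x} (w i) ≥ m` along `Q`), and the sets `insert (w i) (Rg G {w i} x)` are pairwise disjoint (`Rg_avoid`, `Rg_path`, `EF`).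
`low`: `half_path`, `core`, `ex_comp`. -/

open SimpleGraph

namespace PS
variable {V : Type} {G : SimpleGraph V} [Finite V] {k : ℕ}

omit [Finite V] in
theorem Lo3_miss {K : Set V} (hE : EF G K) {z x t : V} (hz : z ∈ K) (hx : x ∉ K) (ha : G.Adj z x)
    (ht : t ∈ Rg G {z} x) : t ∉ K := fun hK => by
  obtain ⟨A, h1, h2⟩ := Rg_path (S := {z}) (fun h => ha.ne' h) ht fun e => hx (e ▸ hK)
  have h3 := h1.cons ha fun hm => h2 z hm rfl
  obtain ⟨L, v, R, e, h4, h5⟩ := B3_first (K := K) (l := x :: (A ++ [t])) ⟨t, by simp, hK⟩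
  refine hE z hz v h5 L ?_ h4 ?_
  · rintro rfl
    exact hx ((List.cons.inj e).1 ▸ h5)
  · rw [e, show z :: (L ++ v :: R) = (z :: (L ++ [v])) ++ R by simp] at h3
    exact h3.left

omit [Finite V] in
theorem Lo3_deg {K : Finset V} {a b : V} (h1 : ∀ v ∈ K, 1 ≤ dg G K v)
    (h2 : ∀ v ∈ K, v ≠ a → v ≠ b → 2 ≤ dg G K v) {j : ℕ} (hj : ex G K ≤ j) :
    (K.filter fun v => 3 ≤ dg G K v).card ≤ j + 2 := by
  classical
  have h : ∑ v ∈ K, ((if 3 ≤ dg G K v then 1 else 0) - (if v = a then 1 else 0) -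
      (if v = b then 1 else 0) : ℤ) ≤ ex G K := Finset.sum_le_sum fun v hv => by
    have := h1 v hv
    have : v = a ∨ v = b ∨ 2 ≤ dg G K v := by
      rw [or_iff_not_imp_left, or_iff_not_imp_left]
      exact h2 v hv
    rcases this with h | h | h <;> split_ifs <;> omega
  rw [Finset.sum_sub_distrib, Finset.sum_sub_distrib, Finset.sum_boole, Finset.sum_ite_eq',
    Finset.sum_ite_eq'] at h
  split_ifs at h <;> omega

theorem Lo3_climb (hD : D2 k G) {K : Set V} (hE : EF G K) {w : ℕ → V} {r : ℕ}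
    (hin : ∀ i < r, w i ∈ K) (hinj : ∀ i < r, ∀ i' < r, w i = w i' → i = i')
    (hadj : ∀ i, i + 1 < r → G.Adj (w i) (w (i + 1))) (μ i : ℕ)
    (h : ∀ i', i ≤ i' + μ → i' ≤ i + μ → 0 < i' ∧ i' + 1 < r ∧ dg G K (w i') < 3) :
    μ + 1 ≤ gK G K (w i) := by
  have ho : ∀ t, t + 2 < r → dg G K (w (t + 1)) < 3 → ∀ u ∈ K, G.Adj (w (t + 1)) u →
      u = w t ∨ u = w (t + 2) := fun t h1 h2 u hu ha => by
    by_contra hc
    rw [not_or] at hc
    have := three_le_dg hu (hin t (by omega)) (hin _ h1) ha (hadj t (by omega)).symm (hadj _ h1)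
      hc.1 hc.2 fun e => by have := hinj _ (by omega) _ h1 e; omega
    omega
  induction μ generalizing i with
  | zero => exact gK_pos G K _
  | succ μ ih =>
    have a0 := h (i - 1) (by omega) (by omega)
    obtain ⟨t, rfl⟩ : ∃ t, i = t + 2 := ⟨i - 2, by omega⟩
    have a1 := h (t + 2) (by omega) (by omega)
    have b1 := ih (t + 1) fun i' p q => h i' (by omega) (by omega)
    have b2 := ih (t + 3) fun i' p q => h i' (by omega) (by omega)
    have k1 := hin (t + 1) (by omega)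
    have k2 := hin (t + 2) (by omega)
    have k3 := hin (t + 3) a1.2.1
    have d1 := (hadj (t + 1) (by omega)).symm
    have d2 := hadj (t + 2) a1.2.1
    have ne : w (t + 1) ≠ w (t + 3) := fun e => by
      have := hinj _ (by omega) _ a1.2.1 e
      omega
    rcases TL hE hD k2 k1 k3 d1 d2 ne (fun ha => by
      rcases ho t (by omega) a0.2.2 _ k3 ha with e | e <;>
      · have := hinj _ a1.2.1 _ (by omega) e
        omega) (ho (t + 1) a1.2.1 a1.2.2) with T | T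
    · exact Nat.succ_le_of_lt (b1.trans_lt (T.lt hE hD.1 k2 k1 k3 d1 ne))
    · exact Nat.succ_le_of_lt (b2.trans_lt (T.lt hE hD.1 k2 k3 k1 d2 ne.symm))

theorem Lo3_tree (hD : D2 k G) {K : Set V} (hE : EF G K) {z : V} (hz : z ∈ K)
    (hA : ∀ y, G.Reachable z y → y ∉ K → Ac G y) {m : ℕ} (h1 : m + 2 ≤ gK G K z)
    (h2 : ∀ x ∉ K, m ≤ lp G {x} z) :
    ∃ x, x ∉ K ∧ G.Adj z x ∧ 2 ^ (m + 1) ≤ (Rg G {z} x).ncard + 1 := by
  obtain ⟨A, a1, a2, a3⟩ := B3_ex G K z
  cases A with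
  | nil => simp only [List.length_nil] at a3; omega
  | cons x A =>
    have hx := a2 x List.mem_cons_self
    have := lp_ge (S := {z}) a1.tail fun v hv e => a2 v hv (Set.mem_singleton_iff.1 e ▸ hz)
    rw [List.length_cons] at a3
    exact ⟨x, hx, a1.adj, brA hD _ a1.adj (fun t ht => hA t (a1.adj.reachable.trans (Rg_sub_Cm _ _ ht))
      (Lo3_miss hE hz hx a1.adj ht)) (by omega) (Nat.succ_le_succ (h2 x hx))⟩

theorem Lo3_sum {K : Set V} (hE : EF G K) (F : Finset ℕ) (w x : ℕ → V) {c : ℕ}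
    (hinj : ∀ i ∈ F, ∀ i' ∈ F, w i = w i' → i = i')
    (h : ∀ i ∈ F, w i ∈ K ∧ x i ∉ K ∧ G.Adj (w i) (x i) ∧ c ≤ (Rg G {w i} (x i)).ncard + 1) :
    c * F.card ≤ Nat.card V := by
  have m : ∀ i ∈ F, ∀ t ∈ Rg G {w i} (x i), t ∉ K := fun i hi t =>
    Lo3_miss hE (h i hi).1 (h i hi).2.1 (h i hi).2.2.1
  have e := F.finite_toSet.ncard_biUnion (s := fun i => insert (w i) (Rg G {w i} (x i)))
    (fun _ _ => Set.toFinite _) fun i hi i' hi' ne => Set.disjoint_left.2 fun t p q => by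
      have av := fun i (hi : i ∈ F) => Rg_avoid (S := {w i}) (fun e => (h i hi).2.2.1.ne' e) (m i hi)
      rcases p with rfl | p
      · exact q.elim (fun e => ne (hinj i hi i' hi' e)) fun q => m i' hi' _ q (h i hi).1
      rcases q with rfl | q
      · exact m i hi _ p (h i' hi').1
      exact m i hi _ (Rg_adj (fun e => (h i hi).2.2.1.ne' e)
        (Rg_anti (Set.singleton_subset_iff.2 (h i hi).1) _
          (Rg_trans (av i hi p) (Rg_symm (av i' hi' q)))) (h i' hi').2.2.1.symm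
        fun e => ne (hinj i hi i' hi' (Eq.symm e))) (h i' hi').1
  rw [finsum_mem_coe_finset] at e
  refine le_trans ?_ (e.ge.trans (Set.ncard_le_card _))
  rw [mul_comm, ← smul_eq_mul]
  refine Finset.card_nsmul_le_sum _ _ _ fun i hi => ?_
  rw [Set.ncard_insert_of_notMem fun q => m i hi _ q (h i hi).1]
  exact (h i hi).2.2.2

theorem lowK (hD : D2 k G) {v₀ : V} {Q : List V} (hQ : P G Q) {K : Finset V}
    (h1 : ∀ u ∈ Q, u ∈ K) (h2 : ∀ u ∈ K, G.Reachable v₀ u) (hE : EF G K)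
    (hA : ∀ y, G.Reachable v₀ y → y ∉ K → Ac G y) (h3 : ∀ u ∈ K, u ∉ Q → 2 ≤ dg G K u)
    {j : ℕ} (hj : ex G K ≤ j) (m : ℕ) :
    2 ^ m * (Q.length - (2 * m + 1) * (j + 4)) ≤ Nat.card V := by
  classical
  rcases m with _ | m
  · rw [pow_zero, one_mul]
    exact (Nat.sub_le _ _).trans hQ.le_card
  rcases le_or_gt Q.length 2 with hr | hr
  · have := Nat.mul_le_mul (show 1 ≤ 2 * (m + 1) + 1 by omega) (show 2 ≤ j + 4 by omega)
    rw [Nat.sub_eq_zero_of_le (by omega), mul_zero]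
    exact Nat.zero_le _
  obtain ⟨w, hw⟩ : ∃ w : ℕ → V, ∀ i (h : i < Q.length), w i = Q[i] :=
    ⟨fun i => Q.getD i v₀, fun i h => List.getD_eq_getElem _ _ h⟩
  have hin : ∀ i < Q.length, w i ∈ K := fun i h => h1 _ (hw i h ▸ List.getElem_mem h)
  have hinj : ∀ i < Q.length, ∀ i' < Q.length, w i = w i' → i = i' := fun i h i' h' e =>
    hQ.1.getElem_inj_iff.1 ((hw i h).symm.trans (e.trans (hw i' h')))
  have hadj : ∀ i, i + 1 < Q.length → G.Adj (w i) (w (i + 1)) := fun i h => by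
    rw [hw i (by omega), hw _ h]
    exact hQ.2.getElem i h
  have hlp : ∀ i < Q.length, ∀ x ∉ K, Q.length - i ≤ lp G {x} (w i) := fun i h x hx => by
    have a := hQ.sub (List.drop_suffix i Q).isInfix
    have b : ∀ v ∈ Q.drop i, v ∉ ({x} : Set V) := fun v hv e =>
      hx (Set.mem_singleton_iff.1 e ▸ h1 v (List.mem_of_mem_drop hv))
    rw [List.drop_eq_getElem_cons h, ← hw i h] at a b
    have := lp_ge a b
    rw [List.length_drop] at this
    omega
  have hv : ∀ v ∈ K, 2 ≤ dg G K v ∨ ∃ i < Q.length, v = w i := fun v hv =>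
    or_iff_not_imp_left.2 fun h => by
      obtain ⟨i, hi, e⟩ := List.mem_iff_getElem.1 (by_contra fun q => h (h3 v hv q))
      exact ⟨i, hi, e.symm.trans (hw i hi).symm⟩
  have one : ∀ v u, u ∈ K → G.Adj v u → 1 ≤ dg G K v := fun v u hu ha =>
    le_dg {u} fun _ h => Finset.mem_singleton.1 h ▸ ⟨hu, ha⟩
  have hd := Lo3_deg (a := w 0) (b := w (Q.length - 1)) (fun v h => by
    rcases hv v h with q | ⟨_ | i, hi, rfl⟩
    · omega
    · exact one _ _ (hin 1 (by omega)) (hadj 0 (by omega))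
    · exact one _ _ (hin i (by omega)) (hadj i hi).symm) (fun v h a b => by
    rcases hv v h with q | ⟨_ | i, hi, rfl⟩
    · exact q
    · exact absurd rfl a
    · have : i + 2 < Q.length := by
        by_contra hc
        exact b (congrArg w (by omega))
      exact two_le_dg (hin i (by omega)) (hin _ this) (hadj i hi).symm (hadj _ this) fun e => by
        have := hinj _ (by omega) _ this e
        omega) hj
  set B := insert 0 (insert (Q.length - 1) ((Finset.range Q.length).filter fun i => 3 ≤ dg G K (w i)))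
    with hB
  have cB : B.card ≤ j + 4 := by
    have := (Finset.card_le_card_of_injOn (s := (Finset.range Q.length).filter fun i =>
      3 ≤ dg G K (w i)) w (fun i hi => by
        rw [Finset.mem_coe, Finset.mem_filter, Finset.mem_range] at hi
        exact Finset.mem_coe.2 (Finset.mem_filter.2 ⟨hin i hi.1, hi.2⟩)) fun i hi i' hi' => by
        rw [Finset.mem_coe, Finset.mem_filter, Finset.mem_range] at hi hi'
        exact hinj i hi.1 i' hi'.1).trans hd
    exact (Finset.card_insert_le _ _).trans (Nat.succ_le_succ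
      ((Finset.card_insert_le _ _).trans (Nat.succ_le_succ this)))
  set F := (Finset.range Q.length).filter fun i => ∀ i', i ≤ i' + (m + 1) → i' ≤ i + (m + 1) →
    0 < i' ∧ i' + 1 < Q.length ∧ dg G K (w i') < 3 with hF
  have cF : Q.length ≤ F.card + (j + 4) * (2 * (m + 1) + 1) := by
    have : Finset.range Q.length ⊆
        F ∪ B.biUnion fun b => Finset.Icc (b - (m + 1)) (b + (m + 1)) := fun i hi => by
      rw [Finset.mem_union, hF, Finset.mem_filter, or_iff_not_imp_left]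
      intro h
      rw [Finset.mem_range] at hi
      simp only [Finset.mem_range, hi, true_and, not_forall] at h
      obtain ⟨i', p, q, h⟩ := h
      simp only [hB, Finset.mem_biUnion, Finset.mem_insert, Finset.mem_filter, Finset.mem_range,
        Finset.mem_Icc]
      by_cases c : i' < Q.length
      · exact ⟨i', by omega, by omega⟩
      · exact ⟨Q.length - 1, by omega, by omega⟩
    have := (Finset.card_le_card this).trans (Finset.card_union_le _ _)
    rw [Finset.card_range] at this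
    exact this.trans (Nat.add_le_add_left ((Finset.card_biUnion_le_card_mul _ _ _ fun b _ => by
      rw [Nat.card_Icc]
      omega).trans (Nat.mul_le_mul_right _ cB)) _)
  have key : ∀ i, ∃ x, i ∈ F → w i ∈ (K : Set V) ∧ x ∉ (K : Set V) ∧ G.Adj (w i) x ∧
      2 ^ (m + 1) ≤ (Rg G {w i} x).ncard + 1 := fun i => by
    by_cases hi : i ∈ F
    · rw [hF, Finset.mem_filter, Finset.mem_range] at hi
      obtain ⟨x, hx⟩ := Lo3_tree hD hE (hin i hi.1) (fun y hy => hA y ((h2 _ (hin i hi.1)).trans hy))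
        (Lo3_climb hD hE hin hinj hadj (m + 1) i hi.2) fun x hx => le_trans (by
          have := hi.2 (i + (m + 1)) (by omega) le_rfl
          omega) (hlp i hi.1 x hx)
      exact ⟨x, fun _ => ⟨hin i hi.1, hx⟩⟩
    · exact ⟨v₀, fun h => absurd h hi⟩
  choose x hx using key
  refine le_trans (Nat.mul_le_mul_left _ ?_) (Lo3_sum hE F w x (fun i hi i' hi' => hinj i
    (Finset.mem_range.1 (Finset.mem_filter.1 hi).1) i'
    (Finset.mem_range.1 (Finset.mem_filter.1 hi').1)) hx)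
  rw [mul_comm]
  omega

theorem low (hk : 9 ≤ k) (hS : SatL k G) (h1 : k ≤ Nat.card V) (h2 : Nat.card V < a k) {j : ℕ}
    (he : G.edgeSet.ncard ≤ Nat.card V + j) (m : ℕ) :
    2 ^ m * (k / 2 - (2 * m + 1) * (2 * j + 6)) ≤ Nat.card V := by
  obtain ⟨Q, hQ, hl⟩ := half_path hS h1
  cases Q with
  | nil => simp only [List.length_nil] at hl; omega
  | cons v Q =>
    obtain ⟨K, a1, a2, a3, a4, a5, a6⟩ := core hQ.reach (List.cons_ne_nil v Q)
    have := ex_comp hk hS h2 v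
    exact (Nat.mul_le_mul_left _ (Nat.sub_le_sub_right (by omega) _)).trans
      (lowK hS.d2 hQ a1 a2 a3 a4 a5 (j := 2 * j + 2) (by omega) m)

end PS
end

-- merged part: Pool.Agent.Work.MP_3e1eec_co.O.Fin
section
/-! The order of magnitude of the second term of the saturation number. -/

open SimpleGraph

namespace PS

theorem Fin_b (k : ℕ) (hk : 2 ≤ k) : b k ≤ 2 ^ k := by
  have h1 : 2 ^ (k / 2 - 2) ≤ 2 ^ (k - 2) := Nat.pow_le_pow_right (by decide) (by omega)
  have h2 : 2 ^ (k / 2 - 1) ≤ 2 ^ (k - 2) := Nat.pow_le_pow_right (by decide) (by omega)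
  have h3 : 2 ^ k = 2 ^ (k - 2) * 2 ^ 2 := by rw [← pow_add]; congr 1; omega
  unfold b
  split_ifs <;> omega

theorem Fin_mem {n k : ℕ} (hk : 2 ≤ k) :
    ∃ G : SimpleGraph (Fin n), SatL k G ∧ G.edgeSet.ncard = satN n k := by
  have h : PF k (⊥ : SimpleGraph (Fin n)) := fun l hl => by
    match l, hl with
    | [], _ => exact lt_of_lt_of_le Nat.zero_lt_two hk
    | [_], _ => exact hk
    | _ :: _ :: _, hl => exact hl.adj.elim
  obtain ⟨G, -, hG, -⟩ := greedy h
  obtain ⟨G', h1, h2⟩ := Nat.sInf_mem (s := {e | ∃ G : SimpleGraph (Fin n), Sat k G ∧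
    G.edgeSet.ncard = e}) ⟨_, G, sat_iff.2 hG, rfl⟩
  exact ⟨G', sat_iff.1 h1, h2⟩

theorem Fin_le {n k e : ℕ} (h : Ok k n e) : satN n k ≤ e := by
  obtain ⟨G, h1, h2⟩ := Ok.transport (V := Fin n) (k := k) (e := e) (by simpa using h)
  exact Nat.sInf_le ⟨G, sat_iff.2 h1, h2⟩

theorem Fin_sq {n : ℕ} (G : SimpleGraph (Fin n)) : G.edgeSet.ncard ≤ n * n := by
  refine (Set.ncard_le_card _).trans ?_
  simpa using Nat.card_le_card_of_surjective (fun p : Fin n × Fin n => s(p.1, p.2))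
    fun z => Sym2.ind (fun x y => ⟨(x, y), rfl⟩) z

/-- The result in integers. -/
theorem Fin_nat {k n h : ℕ} (hk : 9 ≤ k) (h1 : 1 ≤ h) (h2 : 2 ^ h * k ≤ n)
    (h3 : n < 2 ^ (h + 1) * k) (hb : n < b k) :
    ∃ j, satN n k = n + j ∧ k ≤ 290 * h * j ∧ j * (h + 1) ≤ 2 ^ 160 * 2 ^ 160 * k := by
  obtain ⟨G, hG, e⟩ := Fin_mem (n := n) (k := k) (by omega)
  have c : Nat.card (Fin n) = n := by simp
  have p1 : 2 ≤ 2 ^ h := Nat.pow_le_pow_right (n := 2) (by decide) h1
  have kn : 2 * k ≤ n := (Nat.mul_le_mul_right k p1).trans h2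
  have lo : n + 1 ≤ satN n k := by
    by_contra q
    have e1 : s n k = n + 1 := if_pos hb
    have := (main1 hk (by omega) hG (by rw [c]; omega)).1
    rw [c] at this
    omega
  have b2 := Fin_b k (by omega)
  have hk' : h < k := by
    refine (Nat.pow_lt_pow_iff_right (a := 2) (by decide)).1 ?_
    have := Nat.le_mul_of_pos_right (2 ^ h) (show 0 < k by omega)
    omega
  obtain ⟨j, hj⟩ : ∃ j, satN n k = n + j := ⟨satN n k - n, by omega⟩
  have j1 : 1 ≤ j := by omega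
  refine ⟨j, hj, ?_, ?_⟩
  · have l := low hk hG (by omega) (by rw [c]; exact hb.trans_le (b_le_a hk).2.1) (j := j)
      (by omega) (h + 3)
    rw [c, show h + 3 = h + 1 + 2 from rfl, pow_add, mul_assoc] at l
    have l2 := Nat.lt_of_mul_lt_mul_left (l.trans_lt h3)
    have l3 : (2 * (h + 1 + 2) + 1) * (2 * j + 6) ≤ (9 * h) * (8 * j) :=
      Nat.mul_le_mul (by omega) (by omega)
    have l4 : 1 * 1 ≤ h * j := Nat.mul_le_mul h1 j1
    have l5 : (9 * h) * (8 * j) = 72 * (h * j) := by ring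
    rw [mul_assoc]
    omega
  · by_cases hl : 160 ≤ k
    · obtain ⟨e', t, o, u1, u2⟩ := upper hl h1 h2
      have u3 := Fin_le o
      have u4 : j * (h + 1) ≤ 243 * t * (2 * h + 5) := Nat.mul_le_mul (by omega) (by omega)
      have u5 : 243 * t * (2 * h + 5) = 243 * ((2 * h + 5) * t) := by ring
      have u6 : 243 * 31 * k ≤ 2 ^ 160 * 2 ^ 160 * k := Nat.mul_le_mul_right k (by norm_num)
      omega
    · have u1 := Fin_sq G
      have u2 : 2 ^ k ≤ 2 ^ 160 := Nat.pow_le_pow_right (by decide) (by omega)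
      have u3 : n * n ≤ 2 ^ 160 * 2 ^ 160 := Nat.mul_le_mul (by omega) (by omega)
      exact Nat.mul_le_mul (by omega) hk'

theorem order : ∃ c C : ℝ, 0 < c ∧ 0 < C ∧ ∀ k n : ℕ, 5 ≤ k → 2 * k ≤ n → n < b k →
    c * (k / Real.log (n / k)) ≤ (satN n k : ℝ) - n ∧
      (satN n k : ℝ) - n ≤ C * (k / Real.log (n / k)) := by
  have l2 : 0 < Real.log 2 := Real.log_pos (by norm_num)
  refine ⟨Real.log 2 / 290, 2 ^ 160 * 2 ^ 160, by positivity, by positivity, fun k n h5 hn hb => ?_⟩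
  have hk : 9 ≤ k := by
    by_contra q
    have : b k ≤ 2 * k := by
      have q' : k ≤ 8 := by omega
      interval_cases k <;> decide
    omega
  have k0 : 0 < k := by omega
  have d2 : 2 ≤ n / k := (Nat.le_div_iff_mul_le k0).2 hn
  obtain ⟨h, hh⟩ : ∃ h, h = Nat.log 2 (n / k) := ⟨_, rfl⟩
  have h1 : 1 ≤ h := hh ▸ Nat.log_pos (by decide) d2
  have h2 : 2 ^ h * k ≤ n :=
    (Nat.le_div_iff_mul_le k0).1 (hh ▸ Nat.pow_log_le_self 2 (by omega))
  have h3 : n < 2 ^ (h + 1) * k :=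
    (Nat.div_lt_iff_lt_mul k0).1 (hh ▸ Nat.lt_pow_succ_log_self (by decide) _)
  obtain ⟨j, e, a1, a2⟩ := Fin_nat hk h1 h2 h3 hb
  have k1 : (0 : ℝ) < k := by exact_mod_cast k0
  have h0 : (0 : ℝ) < h := by exact_mod_cast h1
  have r1 : h * Real.log 2 ≤ Real.log (n / k) := by
    rw [← Real.log_pow]
    exact Real.log_le_log (by positivity) ((le_div_iff₀ k1).2 (by exact_mod_cast h2))
  have r0 : 0 < Real.log (n / k) := lt_of_lt_of_le (by positivity) r1
  have r2 : Real.log (n / k) ≤ h + 1 := by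
    have n0 : (0 : ℝ) < n := by exact_mod_cast (show 0 < n by omega)
    have a := Real.log_le_log (div_pos n0 k1) (y := 2 ^ (h + 1))
      ((div_le_iff₀ k1).2 (by exact_mod_cast h3.le))
    rw [Real.log_pow] at a
    have b := Real.log_le_sub_one_of_pos (show (0 : ℝ) < 2 by norm_num)
    push_cast at a
    clear * - n k h b a; nlinarith
  have a1' : (k : ℝ) ≤ 290 * h * j := by exact_mod_cast a1
  have a2' : (j : ℝ) * (h + 1) ≤ 2 ^ 160 * 2 ^ 160 * k := by exact_mod_cast a2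
  have j0 : (0 : ℝ) ≤ j := Nat.cast_nonneg _
  rw [e, Nat.cast_add, add_sub_cancel_left, ← mul_div_assoc, ← mul_div_assoc, div_le_iff₀ r0,
    le_div_iff₀ r0]
  constructor
  · calc Real.log 2 / 290 * k ≤ Real.log 2 / 290 * (290 * h * j) :=
        mul_le_mul_of_nonneg_left a1' (by positivity)
      _ = j * (h * Real.log 2) := by ring
      _ ≤ _ := mul_le_mul_of_nonneg_left r1 j0
  · exact (mul_le_mul_of_nonneg_left r2 j0).trans a2'

end PS
end
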